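import Mathlib

/-!
# Asymptotics of the recursion `(n + 1 - r) y n = 2 ∑_{i ≤ n - r} y i + h n`
-/

set_option autoImplicit false

namespace Pool.Agent.J6H73.RSA

open Filter Topology

/-- the recursion -/
def IsSol (r : ℕ) (y h : ℕ → ℝ) : Prop :=
  ∀ n, r ≤ n → ((n + 1 - r : ℕ) : ℝ) * y n = 2 * ∑ i ∈ Finset.range (n + 1 - r), y i + h n

/-- the normalised solution -/
noncomputable def uu (r : ℕ) (y : ℕ → ℝ) (n : ℕ) : ℝ := y n / (n + r)

variable {r : ℕ} {y h : ℕ → ℝ}

lemma uu_mul (hr : 1 ≤ r) (n : ℕ) : uu r y n * (n + r) = y n := by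
  unfold uu
  have : (0 : ℝ) < n + r := by
    have : (1 : ℝ) ≤ r := by exact_mod_cast hr
    positivity
  field_simp

/-- the three term form -/
lemma three_term (hr : 1 ≤ r) (hy : IsSol r y h) (n : ℕ) (hn : r ≤ n) :
    ((n : ℝ) + 2 - r) * ((n : ℝ) + 1 + r) * (uu r y (n + 1) - uu r y n) =
      2 * ((n : ℝ) + 1) * (uu r y (n + 1 - r) - uu r y n) + (h (n + 1) - h n) := by
  have h1 := hy (n + 1) (by omega)
  have h2 := hy n hn
  have e1 : n + 1 + 1 - r = (n + 1 - r) + 1 := by omega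
  rw [e1, Finset.sum_range_succ] at h1
  have c1 : ((n + 1 - r : ℕ) : ℝ) = (n : ℝ) + 1 - r := by
    rw [Nat.cast_sub (by omega)]
    push_cast
    ring
  push_cast at h1
  rw [c1] at h1 h2
  have u1 := uu_mul (y := y) hr (n + 1)
  have u2 := uu_mul (y := y) hr n
  have u3 := uu_mul (y := y) hr (n + 1 - r)
  rw [c1] at u3
  push_cast at u1
  rw [← u1, ← u3] at h1
  rw [← u2] at h2
  linear_combination h1 - h2

/-- bound on the increments -/
lemma incr_bound (hr : 1 ≤ r) (hy : IsSol r y h) {K : ℝ} (hK : ∀ n, |h (n + 1) - h n| ≤ K)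
    (n : ℕ) (hn : r ≤ n) :
    |uu r y (n + 1) - uu r y n| ≤ 2 * (r + 1) / (n + 1) * |uu r y (n + 1 - r) - uu r y n|
      + K * (r + 1) / (n + 1) ^ 2 := by
  have h1 := three_term hr hy n hn
  have hrn : (r : ℝ) ≤ n := by exact_mod_cast hn
  have hr1 : (1 : ℝ) ≤ r := by exact_mod_cast hr
  have hn0 : (0 : ℝ) ≤ n := Nat.cast_nonneg n
  have hK0 : 0 ≤ K := (abs_nonneg _).trans (hK 0)
  have hA : (n : ℝ) + 1 ≤ (n + 2 - r) * (r + 1) := by nlinarith
  have hP : 0 < ((n : ℝ) + 2 - r) * ((n : ℝ) + 1 + r) := by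
    apply mul_pos <;> linarith
  have hQ : ((n : ℝ) + 1) ^ 2 ≤ ((n : ℝ) + 2 - r) * ((n : ℝ) + 1 + r) * (r + 1) := by
    have : ((n : ℝ) + 1) * (n + 1) ≤ (n + 2 - r) * (r + 1) * (n + 1 + r) := by
      apply mul_le_mul hA (by linarith) (by linarith)
      apply mul_nonneg <;> linarith
    nlinarith
  set P := ((n : ℝ) + 2 - r) * ((n : ℝ) + 1 + r) with hPdef
  set D := uu r y (n + 1) - uu r y n with hD
  set G := uu r y (n + 1 - r) - uu r y n with hG
  have h2 : P * |D| ≤ 2 * (n + 1) * |G| + K := by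
    rw [← abs_of_pos hP, ← abs_mul, h1]
    refine (abs_add_le _ _).trans ?_
    rw [abs_mul, abs_of_nonneg (by positivity : (0 : ℝ) ≤ 2 * ((n : ℝ) + 1))]
    linarith [hK n]
  have h3 : |D| ≤ (2 * (n + 1) * |G| + K) / P := by
    rw [le_div_iff₀ hP]
    linarith
  have h4 : (2 * (n + 1) * |G| + K) / P ≤ (2 * (n + 1) * |G| + K) * (r + 1) / (n + 1) ^ 2 := by
    rw [div_le_div_iff₀ hP (by positivity)]
    have : 0 ≤ 2 * ((n : ℝ) + 1) * |G| + K := by positivity
    nlinarith [mul_le_mul_of_nonneg_left hQ this]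
  refine h3.trans (h4.trans_eq ?_)
  field_simp

/-- the normalised solution is bounded -/
lemma uu_bounded (hr : 1 ≤ r) (hy : IsSol r y h) {K : ℝ} (hK : ∀ n, |h (n + 1) - h n| ≤ K) :
    ∃ B : ℝ, 0 ≤ B ∧ ∀ n, |uu r y n| ≤ B := by
  have hK0 : 0 ≤ K := (abs_nonneg _).trans (hK 0)
  set A := ∑ i ∈ Finset.range (r + 1), |uu r y i| with hA
  have hA0 : 0 ≤ A := Finset.sum_nonneg fun _ _ => abs_nonneg _
  have key : ∀ n, |uu r y n| ≤ A + K * (1 - 1 / ((n - r : ℕ) + 1)) := by
    intro n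
    induction n using Nat.strong_induction_on with
    | _ n ih =>
    rcases le_or_gt n r with hnr | hnr
    · have h1 : |uu r y n| ≤ A := Finset.single_le_sum (f := fun i => |uu r y i|)
        (fun _ _ => abs_nonneg _) (Finset.mem_range.mpr (by omega))
      have h2 : n - r = 0 := by omega
      rw [h2]
      simpa using h1
    · obtain ⟨m, rfl⟩ : ∃ m, n = m + 1 := ⟨n - 1, by omega⟩
      have hm : r ≤ m := by omega
      have h1 := three_term hr hy m hm
      have hrn : (r : ℝ) ≤ m := by exact_mod_cast hm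
      have hr1 : (1 : ℝ) ≤ r := by exact_mod_cast hr
      have e1 : ((m - r : ℕ) : ℝ) = m - r := Nat.cast_sub hm
      have e2 : ((m + 1 - r : ℕ) : ℝ) = m + 1 - r := by
        rw [Nat.cast_sub (by omega)]; push_cast; ring
      set P := ((m : ℝ) + 2 - r) * ((m : ℝ) + 1 + r) with hPdef
      have hP : 0 < P := by
        apply mul_pos <;> linarith
      have hPQ : P - 2 * (m + 1) = (m + 1 - r) * (m + r) := by
        rw [hPdef]; ring
      have hQ0 : 0 ≤ ((m : ℝ) + 1 - r) * (m + r) := by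
        apply mul_nonneg <;> linarith
      -- previous bounds
      set b := A + K * (1 - 1 / ((m - r : ℕ) + 1)) with hb
      have b1 : |uu r y m| ≤ b := ih m (by omega)
      have b2 : |uu r y (m + 1 - r)| ≤ b := by
        refine (ih (m + 1 - r) (by omega)).trans ?_
        rw [hb]
        have h5 : ((m + 1 - r - r : ℕ) : ℝ) ≤ ((m - r : ℕ) : ℝ) := by
          exact_mod_cast (by omega : m + 1 - r - r ≤ m - r)
        have h6 : 1 / (((m - r : ℕ) : ℝ) + 1) ≤ 1 / (((m + 1 - r - r : ℕ) : ℝ) + 1) :=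
          one_div_le_one_div_of_le (by positivity) (by linarith)
        nlinarith
      have h2 : P * uu r y (m + 1) = ((m : ℝ) + 1 - r) * (m + r) * uu r y m
          + 2 * (m + 1) * uu r y (m + 1 - r) + (h (m + 1) - h m) := by
        linear_combination h1 + (uu r y m) * hPQ
      have h3 : P * |uu r y (m + 1)| ≤ P * b + K := by
        rw [← abs_of_pos hP, ← abs_mul, h2, abs_of_pos hP]
        refine (abs_add_le _ _).trans ?_
        refine (add_le_add (abs_add_le _ _) (hK m)).trans ?_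
        rw [abs_mul (((m : ℝ) + 1 - r) * (m + r)), abs_mul (2 * ((m : ℝ) + 1)),
          abs_of_nonneg hQ0, abs_of_nonneg (by positivity : (0 : ℝ) ≤ 2 * ((m : ℝ) + 1))]
        have h4 := mul_le_mul_of_nonneg_left b1 hQ0
        have h5 := mul_le_mul_of_nonneg_left b2 (by positivity : (0 : ℝ) ≤ 2 * ((m : ℝ) + 1))
        have h6 : ((m : ℝ) + 1 - r) * (m + r) * b + 2 * (m + 1) * b = P * b := by
          rw [hPdef]; ring
        linarith
      have h4 : |uu r y (m + 1)| ≤ b + K / P := by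
        have : P * (b + K / P) = P * b + K := by field_simp
        rw [← this] at h3
        exact le_of_mul_le_mul_left h3 hP
      refine h4.trans ?_
      rw [hb, e1, e2]
      have h7 : K / P ≤ K * (1 / (m - r + 1) - 1 / (m + 1 - r + 1)) := by
        have h8 : 1 / ((m : ℝ) - r + 1) - 1 / (m + 1 - r + 1) = 1 / ((m - r + 1) * (m + 2 - r)) := by
          have : (m : ℝ) - r + 1 ≠ 0 := by linarith
          have : (m : ℝ) + 1 - r + 1 ≠ 0 := by linarith
          have : (m : ℝ) + 2 - r ≠ 0 := by linarith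
          field_simp
          ring
        rw [h8, mul_one_div]
        apply div_le_div_of_nonneg_left hK0
        · apply mul_pos <;> linarith
        · rw [hPdef]
          nlinarith
      linarith
  refine ⟨A + K, by linarith, fun n => (key n).trans ?_⟩
  have : 0 ≤ 1 / (((n - r : ℕ) : ℝ) + 1) := by positivity
  nlinarith

/-- decay of the increments -/
def Decay (r : ℕ) (y : ℕ → ℝ) (p : ℕ) : Prop :=
  ∃ C : ℝ, 0 ≤ C ∧ ∀ n : ℕ, |uu r y (n + 1) - uu r y n| ≤ C / (n + 1) ^ p

lemma decay_zero (hr : 1 ≤ r) (hy : IsSol r y h) {K : ℝ} (hK : ∀ n, |h (n + 1) - h n| ≤ K) :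
    Decay r y 0 := by
  obtain ⟨B, hB0, hB⟩ := uu_bounded hr hy hK
  refine ⟨2 * B, by linarith, fun n => ?_⟩
  simp only [pow_zero, div_one]
  refine (abs_sub _ _).trans ?_
  linarith [hB (n + 1), hB n]

lemma tele (y : ℕ → ℝ) (r : ℕ) (a b : ℕ) (hab : a ≤ b) :
    |uu r y a - uu r y b| ≤ ∑ j ∈ Finset.Ico a b, |uu r y (j + 1) - uu r y j| := by
  induction b, hab using Nat.le_induction with
  | base => simp
  | succ b hb ih =>
    rw [Finset.sum_Ico_succ_top hb]
    have : uu r y a - uu r y (b + 1) = (uu r y a - uu r y b) - (uu r y (b + 1) - uu r y b) := by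
      ring
    rw [this]
    refine (abs_sub _ _).trans ?_
    linarith

lemma decay_succ (hr : 1 ≤ r) (hy : IsSol r y h) {K : ℝ} (hK : ∀ n, |h (n + 1) - h n| ≤ K)
    (p : ℕ) (hp : p ≤ 1 ∨ K = 0) (hd : Decay r y p) : Decay r y (p + 1) := by
  obtain ⟨C, hC0, hC⟩ := hd
  have hK0 : 0 ≤ K := (abs_nonneg _).trans (hK 0)
  set M := ∑ i ∈ Finset.range r, |uu r y (i + 1) - uu r y i| with hM
  have hM0 : 0 ≤ M := Finset.sum_nonneg fun _ _ => abs_nonneg _
  have hr1 : (1 : ℝ) ≤ r := by exact_mod_cast hr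
  refine ⟨2 * (r + 1) * (r * (C * (r + 1) ^ p)) + K * (r + 1) + M * (r + 1) ^ (p + 1),
    by positivity, fun n => ?_⟩
  have hn0 : (0 : ℝ) ≤ n := Nat.cast_nonneg n
  have hnp : (0 : ℝ) < (n + 1) ^ (p + 1) := by positivity
  rcases le_or_gt r n with hn | hn
  · have h1 := incr_bound hr hy hK n hn
    have hrn : (r : ℝ) ≤ n := by exact_mod_cast hn
    have h2 : |uu r y (n + 1 - r) - uu r y n| ≤ r * (C * (r + 1) ^ p / (n + 1) ^ p) := by
      refine (tele y r (n + 1 - r) n (by omega)).trans ?_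
      have h3 : ∀ j ∈ Finset.Ico (n + 1 - r) n, |uu r y (j + 1) - uu r y j| ≤
          C * (r + 1) ^ p / (n + 1) ^ p := by
        intro j hj
        rw [Finset.mem_Ico] at hj
        refine (hC j).trans ?_
        have hj1 : (n : ℝ) + 1 ≤ j + r := by
          have : n + 1 ≤ j + r := by omega
          exact_mod_cast this
        have hj2 : (n : ℝ) + 1 ≤ (r + 1) * (j + 1) := by
          have hj0 : (0 : ℝ) ≤ j := Nat.cast_nonneg j
          nlinarith
        rw [div_le_div_iff₀ (by positivity) (by positivity)]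
        have h4 : ((n : ℝ) + 1) ^ p ≤ (r + 1) ^ p * (j + 1) ^ p := by
          rw [← mul_pow]
          exact pow_le_pow_left₀ (by positivity) hj2 p
        nlinarith [mul_le_mul_of_nonneg_left h4 hC0]
      refine (Finset.sum_le_card_nsmul _ _ _ h3).trans ?_
      rw [Nat.card_Ico, nsmul_eq_mul]
      apply mul_le_mul_of_nonneg_right _ (by positivity)
      have : n - (n + 1 - r) ≤ r := by omega
      exact_mod_cast this
    have h5 : 2 * ((r : ℝ) + 1) / (n + 1) * |uu r y (n + 1 - r) - uu r y n| ≤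
        2 * (r + 1) * (r * (C * (r + 1) ^ p)) / (n + 1) ^ (p + 1) := by
      refine (mul_le_mul_of_nonneg_left h2 (by positivity)).trans_eq ?_
      rw [pow_succ]
      field_simp
    have h6 : K * ((r : ℝ) + 1) / (n + 1) ^ 2 ≤ K * (r + 1) / (n + 1) ^ (p + 1) := by
      rcases hp with hp | hp
      · apply div_le_div_of_nonneg_left (by positivity) hnp
        exact pow_le_pow_right₀ (by linarith) (by omega)
      · rw [hp]; simp
    have h7 : 0 ≤ M * ((r : ℝ) + 1) ^ (p + 1) / (n + 1) ^ (p + 1) := by positivity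
    rw [add_div, add_div]
    linarith
  · have h1 : |uu r y (n + 1) - uu r y n| ≤ M := Finset.single_le_sum
      (f := fun i => |uu r y (i + 1) - uu r y i|) (fun _ _ => abs_nonneg _)
      (Finset.mem_range.mpr hn)
    have h2 : M ≤ M * (r + 1) ^ (p + 1) / (n + 1) ^ (p + 1) := by
      rw [le_div_iff₀ hnp]
      apply mul_le_mul_of_nonneg_left _ hM0
      apply pow_le_pow_left₀ (by positivity)
      have : (n : ℝ) ≤ r := by exact_mod_cast hn.le
      linarith
    have h7 : 0 ≤ (2 * ((r : ℝ) + 1) * (r * (C * (r + 1) ^ p)) + K * (r + 1)) / (n + 1) ^ (p + 1) := by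
      positivity
    rw [add_div]
    linarith

/-- decay of order at least two gives a limit with a rate -/
lemma limit_of_decay (hr : 1 ≤ r) (p : ℕ) (hd : Decay r y (p + 2)) :
    ∃ l C : ℝ, 0 ≤ C ∧ ∀ n : ℕ, |y n - l * (n + r)| ≤ C / (n + 1) ^ p := by
  obtain ⟨C, hC0, hC⟩ := hd
  have key : ∀ n m : ℕ, 1 ≤ n → n ≤ m → |uu r y n - uu r y m| ≤ C / n ^ p * (1 / n - 1 / m) := by
    intro n m hn hnm
    have hn0 : (0 : ℝ) < n := by exact_mod_cast hn
    refine (tele y r n m hnm).trans ?_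
    induction m, hnm using Nat.le_induction with
    | base => simp
    | succ m hm ih =>
      rw [Finset.sum_Ico_succ_top hm]
      have h1 := hC m
      have hm0 : (0 : ℝ) < m := by
        have : 0 < m := by omega
        exact_mod_cast this
      have hnm' : (n : ℝ) ≤ m := by exact_mod_cast hm
      have h2 : C / ((m : ℝ) + 1) ^ (p + 2) ≤ C / n ^ p * (1 / m - 1 / (m + 1)) := by
        have h3 : (1 : ℝ) / m - 1 / (m + 1) = 1 / (m * (m + 1)) := by
          field_simp
          ring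
        rw [h3, div_mul_div_comm, mul_one]
        apply div_le_div_of_nonneg_left hC0 (by positivity)
        rw [pow_add]
        apply mul_le_mul _ _ (by positivity) (by positivity)
        · exact pow_le_pow_left₀ hn0.le (by linarith) p
        · nlinarith
      push_cast
      have h4 : C / (n : ℝ) ^ p * (1 / n - 1 / (m + 1)) =
          C / n ^ p * (1 / n - 1 / m) + C / n ^ p * (1 / m - 1 / (m + 1)) := by ring
      rw [h4]
      linarith
  have hkey' : ∀ n m : ℕ, 1 ≤ n → n ≤ m → |uu r y n - uu r y m| ≤ C / n ^ (p + 1) := by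
    intro n m hn hnm
    refine (key n m hn hnm).trans ?_
    have hn0 : (0 : ℝ) < n := by exact_mod_cast hn
    have : (0 : ℝ) ≤ 1 / (m : ℝ) := by positivity
    have h1 : C / (n : ℝ) ^ p * (1 / n - 1 / m) ≤ C / n ^ p * (1 / n) := by
      apply mul_le_mul_of_nonneg_left _ (by positivity)
      linarith
    refine h1.trans_eq ?_
    rw [pow_succ]
    field_simp
  -- Cauchy
  have hcau : CauchySeq (uu r y) := by
    rw [Metric.cauchySeq_iff']
    intro ε hε
    obtain ⟨N, hN⟩ := exists_nat_gt (C / ε)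
    refine ⟨N + 1, fun n hn => ?_⟩
    rw [dist_comm, Real.dist_eq]
    refine (hkey' (N + 1) n (by omega) hn).trans_lt ?_
    have hN1 : (0 : ℝ) < (N : ℝ) + 1 := by positivity
    push_cast
    rw [div_lt_iff₀ (by positivity)]
    rw [div_lt_iff₀ hε] at hN
    have h1 : (N : ℝ) + 1 ≤ ((N : ℝ) + 1) ^ (p + 1) := by
      refine le_self_pow₀ (by linarith [Nat.cast_nonneg (α := ℝ) N]) (by omega)
    nlinarith
  obtain ⟨l, hl⟩ := cauchySeq_tendsto_of_complete hcau
  have hrate : ∀ n : ℕ, 1 ≤ n → |uu r y n - l| ≤ C / n ^ (p + 1) := by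
    intro n hn
    have h1 : Tendsto (fun m => |uu r y n - uu r y m|) atTop (𝓝 |uu r y n - l|) :=
      (tendsto_const_nhds.sub hl).abs
    refine le_of_tendsto h1 ?_
    filter_upwards [eventually_ge_atTop n] with m hm
    exact hkey' n m hn hm
  have hr1 : (1 : ℝ) ≤ r := by exact_mod_cast hr
  refine ⟨l, C * (r + 1) * 2 ^ p + |y 0 - l * (0 + r)|, by positivity, fun n => ?_⟩
  rcases Nat.eq_zero_or_pos n with rfl | hn
  · simp only [Nat.cast_zero, zero_add, one_pow, div_one]
    have : 0 ≤ C * ((r : ℝ) + 1) * 2 ^ p := by positivity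
    linarith
  · have h1 := hrate n hn
    have hn0 : (0 : ℝ) < n := by exact_mod_cast hn
    have hn1 : (1 : ℝ) ≤ n := by exact_mod_cast hn
    have h2 : y n - l * (n + r) = (uu r y n - l) * (n + r) := by
      rw [sub_mul, uu_mul hr]
    rw [h2, abs_mul, abs_of_pos (by positivity : (0 : ℝ) < n + r)]
    have h3 : |uu r y n - l| * (n + r) ≤ C / n ^ (p + 1) * (n * (r + 1)) := by
      apply mul_le_mul h1 _ (by positivity) (by positivity)
      nlinarith
    have h4 : C / (n : ℝ) ^ (p + 1) * (n * (r + 1)) = C * (r + 1) / n ^ p := by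
      rw [pow_succ]
      field_simp
    have h5 : C * ((r : ℝ) + 1) / n ^ p ≤ C * (r + 1) * 2 ^ p / (n + 1) ^ p := by
      rw [div_le_div_iff₀ (by positivity) (by positivity), mul_assoc (C * ((r : ℝ) + 1))]
      apply mul_le_mul_of_nonneg_left _ (by positivity)
      rw [← mul_pow]
      exact pow_le_pow_left₀ (by positivity) (by linarith) p
    have h6 : 0 ≤ |y 0 - l * (0 + r)| / ((n : ℝ) + 1) ^ p := by positivity
    rw [add_div]
    linarith

/-- the inhomogeneous equation -/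
lemma asym_inhom (hr : 1 ≤ r) (hy : IsSol r y h) {K : ℝ} (hK : ∀ n, |h (n + 1) - h n| ≤ K) :
    ∃ l C : ℝ, 0 ≤ C ∧ ∀ n : ℕ, |y n - l * (n + r)| ≤ C := by
  have h0 := decay_zero hr hy hK
  have h1 := decay_succ hr hy hK 0 (Or.inl (by norm_num)) h0
  have h2 := decay_succ hr hy hK 1 (Or.inl (by norm_num)) h1
  obtain ⟨l, C, hC0, hC⟩ := limit_of_decay hr 0 h2
  exact ⟨l, C, hC0, fun n => by simpa using hC n⟩

/-- the homogeneous equation -/
lemma asym_hom (hr : 1 ≤ r) (hy : IsSol r y fun _ => 0) :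
    ∃ l C : ℝ, 0 ≤ C ∧ ∀ n : ℕ, |y n - l * (n + r)| ≤ C / (n + 1) ^ 2 := by
  have hK : ∀ n : ℕ, |(fun _ : ℕ => (0 : ℝ)) (n + 1) - (fun _ : ℕ => (0 : ℝ)) n| ≤ 0 := by simp
  have h0 := decay_zero hr hy hK
  have h1 := decay_succ hr hy hK 0 (Or.inr rfl) h0
  have h2 := decay_succ hr hy hK 1 (Or.inr rfl) h1
  have h3 := decay_succ hr hy hK 2 (Or.inr rfl) h2
  have h4 := decay_succ hr hy hK 3 (Or.inr rfl) h3
  exact limit_of_decay hr 2 h4

end Pool.Agent.J6H73.RSA
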