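import Mathlib
import Pool.Agent.J6H73.RSA.Asym

/-!
# Generating functions for the recursion, identification of the limit
-/

set_option autoImplicit false

namespace Pool.Agent.J6H73.RSA

open Filter Topology Set

/-- the partial sum `x + x²/2 + ⋯ + x^(r-1)/(r-1)` -/
noncomputable def SS (r : ℕ) (x : ℝ) : ℝ := ∑ k ∈ Finset.Icc 1 (r - 1), x ^ k / k

/-- its derivative -/
noncomputable def SS' (r : ℕ) (x : ℝ) : ℝ := ∑ k ∈ Finset.Icc 1 (r - 1), x ^ (k - 1)

lemma hasDerivAt_SS (r : ℕ) (x : ℝ) : HasDerivAt (SS r) (SS' r x) x := by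
  unfold SS SS'
  have h := HasDerivAt.fun_sum (u := Finset.Icc 1 (r - 1)) (A := fun (k : ℕ) (x : ℝ) => x ^ k / k)
    (A' := fun k => x ^ (k - 1)) (x := x) (fun k hk => by
      rw [Finset.mem_Icc] at hk
      have hk0 : (k : ℝ) ≠ 0 := by
        have : 0 < k := by omega
        exact_mod_cast this.ne'
      exact ((hasDerivAt_pow k x).div_const (k : ℝ)).congr_deriv
        (mul_div_cancel_left₀ _ hk0))
  exact h

lemma SS'_mul (r : ℕ) (hr : 1 ≤ r) (x : ℝ) : (1 - x) * SS' r x = 1 - x ^ (r - 1) := by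
  unfold SS'
  obtain ⟨s, rfl⟩ : ∃ s, r = s + 1 := ⟨r - 1, by omega⟩
  simp only [Nat.add_sub_cancel]
  have h : ∑ k ∈ Finset.Icc 1 s, x ^ (k - 1) = ∑ i ∈ Finset.range s, x ^ i := by
    have : Finset.Icc 1 s = Finset.Ico 1 (s + 1) := by
      ext; simp only [Finset.mem_Icc, Finset.mem_Ico]; omega
    rw [this, Finset.sum_Ico_eq_sum_range]
    simp
  rw [h]
  have := mul_neg_geom_sum x s
  exact this

lemma SS_cont (r : ℕ) : Continuous (SS r) := by
  unfold SS
  fun_prop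

lemma SS_zero (r : ℕ) : SS r 0 = 0 := by
  unfold SS
  refine Finset.sum_eq_zero fun k hk => ?_
  rw [Finset.mem_Icc] at hk
  rw [zero_pow (by omega), zero_div]

/-! ### summability -/

lemma summable_lin {y : ℕ → ℝ} {K : ℝ} (hK : ∀ n : ℕ, |y n| ≤ K * (n + 1)) {x : ℝ} (hx : |x| < 1) :
    Summable fun n => ‖y n * x ^ n‖ := by
  have hx' : ‖|x|‖ < 1 := by rwa [Real.norm_eq_abs, abs_abs]
  have h1 : Summable fun n : ℕ => (n : ℝ) * |x| ^ n := by
    simpa using summable_pow_mul_geometric_of_norm_lt_one 1 hx'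
  have h2 : Summable fun n : ℕ => |x| ^ n := summable_geometric_of_norm_lt_one hx'
  refine Summable.of_nonneg_of_le (fun n => norm_nonneg _) (fun n => ?_)
    ((h1.add h2).mul_left K)
  rw [norm_mul, Real.norm_eq_abs, norm_pow, Real.norm_eq_abs]
  have := mul_le_mul_of_nonneg_right (hK n) (by positivity : 0 ≤ |x| ^ n)
  linarith

lemma shift_bound {y : ℕ → ℝ} {K : ℝ} (hK0 : 0 ≤ K) (hK : ∀ n : ℕ, |y n| ≤ K * (n + 1)) (r : ℕ) :
    ∀ n : ℕ, |y (n + r)| ≤ (K * (r + 1)) * (n + 1) := by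
  intro n
  refine (hK (n + r)).trans ?_
  push_cast
  have hn : (0 : ℝ) ≤ n := Nat.cast_nonneg n
  have hr : (0 : ℝ) ≤ r := Nat.cast_nonneg r
  have : (n : ℝ) + r + 1 ≤ (r + 1) * (n + 1) := by nlinarith
  nlinarith

/-- the generating function -/
noncomputable def YY (y : ℕ → ℝ) (x : ℝ) : ℝ := ∑' n, y n * x ^ n

/-- the shifted generating function `∑ y (j + r) x ^ (j + 1)` -/
noncomputable def FF (r : ℕ) (y : ℕ → ℝ) (x : ℝ) : ℝ := ∑' j : ℕ, y (j + r) * x ^ (j + 1)

lemma FF_eq (r : ℕ) (y : ℕ → ℝ) (x : ℝ) : FF r y x = x * YY (fun j => y (j + r)) x := by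
  unfold FF YY
  rw [← tsum_mul_left]
  congr 1
  funext j
  rw [pow_succ]
  ring

variable {y h : ℕ → ℝ} {K : ℝ}

lemma YY_split (r : ℕ) (hK : ∀ n : ℕ, |y n| ≤ K * (n + 1)) {x : ℝ} (hx : |x| < 1) :
    YY y x = ∑ i ∈ Finset.range r, y i * x ^ i + x ^ r * YY (fun j => y (j + r)) x := by
  unfold YY
  have hs := (summable_lin hK hx).of_norm
  rw [← hs.sum_add_tsum_nat_add r, ← tsum_mul_left]
  congr 1
  congr 1
  funext j
  rw [pow_add]
  ring

lemma YY_split' {r : ℕ} (hr : 1 ≤ r) (hK : ∀ n : ℕ, |y n| ≤ K * (n + 1)) {x : ℝ} (hx : |x| < 1) :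
    YY y x = ∑ i ∈ Finset.range r, y i * x ^ i + x ^ (r - 1) * FF r y x := by
  rw [YY_split r hK hx, FF_eq]
  congr 1
  rw [← mul_assoc, ← pow_succ, Nat.sub_add_cancel hr]

/-- generating function of the partial sums -/
lemma partial_gen (hK : ∀ n : ℕ, |y n| ≤ K * (n + 1)) {x : ℝ} (hx : |x| < 1) :
    ∑' j : ℕ, (∑ i ∈ Finset.range (j + 1), y i) * x ^ j = YY y x * (1 - x)⁻¹ := by
  have h1 := summable_lin hK hx
  have h2 : Summable fun n => ‖x ^ n‖ := by
    have hx' : ‖x‖ < 1 := by rwa [Real.norm_eq_abs]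
    exact summable_norm_geometric_of_norm_lt_one hx'
  have h3 := tsum_mul_tsum_eq_tsum_sum_range_of_summable_norm h1 h2
  have hx' : ‖x‖ < 1 := by rwa [Real.norm_eq_abs]
  rw [tsum_geometric_of_norm_lt_one hx'] at h3
  unfold YY
  rw [h3]
  congr 1
  funext j
  rw [Finset.sum_mul]
  refine Finset.sum_congr rfl fun i hi => ?_
  rw [Finset.mem_range] at hi
  rw [mul_assoc, ← pow_add]
  congr 2
  omega

lemma summable_partial (hK0 : 0 ≤ K) (hK : ∀ n : ℕ, |y n| ≤ K * (n + 1)) {x : ℝ} (hx : |x| < 1) :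
    Summable fun j : ℕ => (∑ i ∈ Finset.range (j + 1), y i) * x ^ j := by
  have hx' : ‖|x|‖ < 1 := by rwa [Real.norm_eq_abs, abs_abs]
  have h1 : Summable fun n : ℕ => (n : ℝ) ^ 2 * |x| ^ n :=
    summable_pow_mul_geometric_of_norm_lt_one 2 hx'
  have h2 : Summable fun n : ℕ => (n : ℝ) * |x| ^ n := by
    simpa using summable_pow_mul_geometric_of_norm_lt_one 1 hx'
  have h3 : Summable fun n : ℕ => |x| ^ n := summable_geometric_of_norm_lt_one hx'
  refine Summable.of_norm_bounded ((h1.add ((h2.mul_left 2).add h3)).mul_left K) (fun n => ?_)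
  rw [norm_mul, Real.norm_eq_abs, norm_pow, Real.norm_eq_abs]
  have h4 : |∑ i ∈ Finset.range (n + 1), y i| ≤ K * (n + 1) ^ 2 := by
    refine (Finset.abs_sum_le_sum_abs _ _).trans ?_
    have h5 : ∀ i ∈ Finset.range (n + 1), |y i| ≤ K * (n + 1) := by
      intro i hi
      refine (hK i).trans ?_
      apply mul_le_mul_of_nonneg_left _ hK0
      rw [Finset.mem_range] at hi
      have : (i : ℝ) ≤ n := by exact_mod_cast (by omega : i ≤ n)
      linarith
    refine (Finset.sum_le_card_nsmul _ _ _ h5).trans_eq ?_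
    rw [Finset.card_range, nsmul_eq_mul]
    push_cast
    ring
  have := mul_le_mul_of_nonneg_right h4 (by positivity : 0 ≤ |x| ^ n)
  nlinarith

/-- derivative of the shifted generating function -/
lemma hasDerivAt_FF (r : ℕ) (hK0 : 0 ≤ K) (hK : ∀ n : ℕ, |y n| ≤ K * (n + 1)) {x : ℝ}
    (hx : |x| < 1) :
    HasDerivAt (FF r y) (∑' j : ℕ, ((j + 1 : ℕ) : ℝ) * y (j + r) * x ^ j) x := by
  obtain ⟨ρ, hρ1, hρ2⟩ := exists_between hx
  have hρ0 : 0 < ρ := (abs_nonneg x).trans_lt hρ1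
  have hρ' : ‖ρ‖ < 1 := by rwa [Real.norm_eq_abs, abs_of_pos hρ0]
  have hsb := shift_bound hK0 hK r
  have h1 : Summable fun n : ℕ => (n : ℝ) ^ 2 * ρ ^ n :=
    summable_pow_mul_geometric_of_norm_lt_one 2 hρ'
  have h2 : Summable fun n : ℕ => (n : ℝ) * ρ ^ n := by
    simpa using summable_pow_mul_geometric_of_norm_lt_one 1 hρ'
  have h3 : Summable fun n : ℕ => ρ ^ n := summable_geometric_of_norm_lt_one hρ'
  have hu : Summable fun n : ℕ => (K * (r + 1)) * (n + 1) ^ 2 * ρ ^ n := by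
    have := ((h1.add ((h2.mul_left 2).add h3)).mul_left (K * (r + 1)))
    refine this.congr fun n => ?_
    ring
  have hxt : x ∈ Ioo (-ρ) ρ := abs_lt.mp hρ1
  refine hasDerivAt_tsum_of_isPreconnected hu isOpen_Ioo isPreconnected_Ioo
    (g := fun (j : ℕ) (z : ℝ) => y (j + r) * z ^ (j + 1))
    (g' := fun (j : ℕ) (z : ℝ) => ((j + 1 : ℕ) : ℝ) * y (j + r) * z ^ j) ?_ ?_ hxt ?_ hxt
  · intro j z _
    refine ((hasDerivAt_pow (j + 1) z).const_mul (y (j + r))).congr_deriv ?_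
    simp only [Nat.add_sub_cancel]
    ring
  · intro j z hz
    rw [norm_mul, norm_mul, Real.norm_natCast, Real.norm_eq_abs, norm_pow, Real.norm_eq_abs]
    have h4 : |z| ≤ ρ := (abs_lt.mpr hz).le
    have h5 : |z| ^ j ≤ ρ ^ j := pow_le_pow_left₀ (abs_nonneg z) h4 j
    have h6 := hsb j
    have h7 : ((j + 1 : ℕ) : ℝ) * |y (j + r)| ≤ (K * (r + 1)) * (j + 1) ^ 2 := by
      push_cast
      have := mul_le_mul_of_nonneg_left h6 (by positivity : (0 : ℝ) ≤ (j : ℝ) + 1)
      nlinarith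
    exact mul_le_mul h7 h5 (by positivity) (by positivity)
  · have := (summable_lin hsb hx).of_norm.mul_left x
    refine this.congr fun j => ?_
    rw [pow_succ]
    ring

/-- the differential equation -/
lemma FF_ode {r : ℕ} (hK0 : 0 ≤ K) (hK : ∀ n : ℕ, |y n| ≤ K * (n + 1))
    (hh : ∀ n : ℕ, |h n| ≤ K * (n + 1)) (hy : IsSol r y h) {x : ℝ} (hx : |x| < 1) :
    ∑' j : ℕ, ((j + 1 : ℕ) : ℝ) * y (j + r) * x ^ j =
      2 * (YY y x * (1 - x)⁻¹) + YY (fun j => h (j + r)) x := by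
  have h1 : ∀ j : ℕ, ((j + 1 : ℕ) : ℝ) * y (j + r) * x ^ j =
      2 * ((∑ i ∈ Finset.range (j + 1), y i) * x ^ j) + h (j + r) * x ^ j := by
    intro j
    have h2 := hy (j + r) (by omega)
    rw [show j + r + 1 - r = j + 1 by omega] at h2
    rw [h2]
    ring
  simp only [h1]
  rw [Summable.tsum_add ((summable_partial hK0 hK hx).mul_left 2)
    (summable_lin (shift_bound hK0 hh r) hx).of_norm, tsum_mul_left, partial_gen hK hx]
  rfl

/-- the integrated form -/
noncomputable def WW (r : ℕ) (y : ℕ → ℝ) (x : ℝ) : ℝ :=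
  (1 - x) ^ 2 * Real.exp (2 * SS r x) * FF r y x

lemma hasDerivAt_WW {r : ℕ} (hr : 1 ≤ r) (hK0 : 0 ≤ K) (hK : ∀ n : ℕ, |y n| ≤ K * (n + 1))
    (hh : ∀ n : ℕ, |h n| ≤ K * (n + 1)) (hy : IsSol r y h) {x : ℝ} (hx : |x| < 1) :
    HasDerivAt (WW r y) (Real.exp (2 * SS r x) *
      (2 * (1 - x) * (∑ i ∈ Finset.range r, y i * x ^ i) +
        (1 - x) ^ 2 * YY (fun j => h (j + r)) x)) x := by
  have h1 := hasDerivAt_FF r hK0 hK hx
  rw [FF_ode hK0 hK hh hy hx] at h1
  have h2 := ((hasDerivAt_SS r x).const_mul 2).exp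
  have h3 : HasDerivAt (fun x : ℝ => (1 - x) ^ 2) (-(2 * (1 - x))) x := by
    refine (((hasDerivAt_id' x).const_sub 1).fun_pow 2).congr_deriv ?_
    simp
  have h4 := (h3.fun_mul h2).fun_mul h1
  refine h4.congr_deriv ?_
  have h5 := SS'_mul r hr x
  have h6 := YY_split' hr hK hx
  have h7 : 1 - x ≠ 0 := by
    have := (abs_lt.mp hx).2
    linarith
  have h8 : (1 - x) ^ 2 * (2 * (YY y x * (1 - x)⁻¹)) = 2 * (1 - x) * YY y x := by
    field_simp
  have h9 : (1 - x) ^ 2 * Real.exp (2 * SS r x) *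
      (2 * (YY y x * (1 - x)⁻¹) + YY (fun j => h (j + r)) x) =
      Real.exp (2 * SS r x) * (2 * (1 - x) * YY y x
        + (1 - x) ^ 2 * YY (fun j => h (j + r)) x) := by
    rw [← h8]; ring
  rw [h9, h6]
  linear_combination (2 * (1 - x) * Real.exp (2 * SS r x) * FF r y x) * h5

lemma WW_zero (r : ℕ) (y : ℕ → ℝ) : WW r y 0 = 0 := by
  unfold WW
  rw [FF_eq]
  ring

/-- the integrated equation -/
lemma WW_eq {r : ℕ} (hr : 1 ≤ r) (hK0 : 0 ≤ K) (hK : ∀ n : ℕ, |y n| ≤ K * (n + 1))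
    (hh : ∀ n : ℕ, |h n| ≤ K * (n + 1)) (hy : IsSol r y h) (k : ℝ → ℝ)
    (hk : ContinuousOn k (Icc 0 1))
    (hkh : ∀ t, 0 ≤ t → t < 1 → (1 - t) ^ 2 * YY (fun j => h (j + r)) t = k t)
    {x : ℝ} (hx0 : 0 ≤ x) (hx1 : x < 1) :
    WW r y x = ∫ t in (0 : ℝ)..x, Real.exp (2 * SS r t) *
      (2 * (1 - t) * (∑ i ∈ Finset.range r, y i * t ^ i) + k t) := by
  have hSc := SS_cont r
  have h1 := intervalIntegral.integral_eq_sub_of_hasDerivAt (a := 0) (b := x)
    (f := WW r y) (f' := fun t => Real.exp (2 * SS r t) *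
      (2 * (1 - t) * (∑ i ∈ Finset.range r, y i * t ^ i) + k t)) ?_ ?_
  · rw [h1, WW_zero, sub_zero]
  · intro t ht
    rw [uIcc_of_le hx0] at ht
    have ht1 : t < 1 := ht.2.trans_lt hx1
    have habs : |t| < 1 := by
      rw [abs_of_nonneg ht.1]; exact ht1
    have := hasDerivAt_WW hr hK0 hK hh hy habs
    rwa [hkh t ht.1 ht1] at this
  · apply ContinuousOn.intervalIntegrable
    rw [uIcc_of_le hx0]
    have hk' : ContinuousOn k (Icc 0 x) := hk.mono (Icc_subset_Icc_right hx1.le)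
    have hc : Continuous fun t : ℝ => Real.exp (2 * SS r t) := by fun_prop
    have hp : Continuous fun t : ℝ => 2 * (1 - t) * (∑ i ∈ Finset.range r, y i * t ^ i) := by
      fun_prop
    exact hc.continuousOn.mul (hp.continuousOn.add hk')

/-- Abelian part -/
lemma FF_tendsto {r : ℕ} {l C : ℝ} (hC : ∀ n : ℕ, |y n - l * (n + r)| ≤ C) :
    Tendsto (fun x : ℝ => (1 - x) ^ 2 * FF r y x) (𝓝[<] 1) (𝓝 l) := by
  have hC0 : 0 ≤ C := (abs_nonneg _).trans (hC 0)
  have hlin : ∀ n : ℕ, |y n| ≤ (C + |l| * (r + 1)) * (n + 1) := by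
    intro n
    have h1 : |y n| ≤ |y n - l * (n + r)| + |l * (n + r)| := by
      have := abs_add_le (y n - l * (n + r)) (l * (n + r))
      simpa using this
    have hn : (0 : ℝ) ≤ n := Nat.cast_nonneg n
    have hr : (0 : ℝ) ≤ r := Nat.cast_nonneg r
    have h2 : |l * (n + r)| = |l| * (n + r) := by
      rw [abs_mul, abs_of_nonneg (by positivity : (0 : ℝ) ≤ n + r)]
    have h3 := hC n
    have h4 : (n : ℝ) + r ≤ (r + 1) * (n + 1) := by nlinarith
    have h5 := mul_le_mul_of_nonneg_left h4 (abs_nonneg l)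
    nlinarith
  -- the main identity
  have key : ∀ x : ℝ, 0 < x → x < 1 →
      |(1 - x) ^ 2 * FF r y x - l * (x + (2 * r - 1) * x * (1 - x))| ≤ C * (1 - x) := by
    intro x hx0 hx1
    have habs : |x| < 1 := by rwa [abs_of_pos hx0]
    have hnorm : ‖x‖ < 1 := by rwa [Real.norm_eq_abs]
    have hx1' : 0 < 1 - x := by linarith
    have hg0 : ∑' j : ℕ, x ^ j = (1 - x)⁻¹ := tsum_geometric_of_norm_lt_one hnorm
    have hg1 : ∑' j : ℕ, ((j : ℝ)) * x ^ j = x / (1 - x) ^ 2 := tsum_coe_mul_geometric_of_norm_lt_one hnorm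
    have hs0 : Summable fun j : ℕ => x ^ j := summable_geometric_of_norm_lt_one hnorm
    have hs1 : Summable fun j : ℕ => (j : ℝ) * x ^ j := by
      simpa using summable_pow_mul_geometric_of_norm_lt_one 1 hnorm
    set e : ℕ → ℝ := fun j => y (j + r) - l * ((j + r : ℕ) + r) with he
    have hse : Summable fun j : ℕ => e j * x ^ j := by
      refine Summable.of_norm_bounded (hs0.mul_left C) fun j => ?_
      rw [norm_mul, norm_pow, Real.norm_eq_abs, Real.norm_eq_abs, abs_of_pos hx0]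
      exact mul_le_mul_of_nonneg_right (hC (j + r)) (by positivity)
    have hFF : FF r y x = x * (∑' j : ℕ, e j * x ^ j) +
        l * (x * (x / (1 - x) ^ 2) + 2 * r * x * (1 - x)⁻¹) := by
      rw [FF_eq]
      unfold YY
      have h1 : ∀ j : ℕ, y (j + r) * x ^ j = e j * x ^ j + (l * ((j : ℝ) * x ^ j)
          + l * (2 * r) * x ^ j) := by
        intro j
        simp only [he]
        push_cast
        ring
      simp only [h1]
      rw [Summable.tsum_add hse ((hs1.mul_left l).add (hs0.mul_left _)),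
        Summable.tsum_add (hs1.mul_left l) (hs0.mul_left _), tsum_mul_left, tsum_mul_left,
        hg0, hg1]
      ring
    have herr : |∑' j : ℕ, e j * x ^ j| ≤ C * (1 - x)⁻¹ := by
      rw [← hg0, ← tsum_mul_left]
      have h2 := norm_tsum_le_tsum_norm hse.norm
      rw [Real.norm_eq_abs] at h2
      refine h2.trans ?_
      refine hse.norm.tsum_le_tsum ?_ (hs0.mul_left C)
      intro j
      rw [norm_mul, norm_pow, Real.norm_eq_abs, Real.norm_eq_abs, abs_of_pos hx0]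
      exact mul_le_mul_of_nonneg_right (hC (j + r)) (by positivity)
    have h3 : (1 - x) ^ 2 * FF r y x - l * (x + (2 * r - 1) * x * (1 - x)) =
        (1 - x) ^ 2 * x * (∑' j : ℕ, e j * x ^ j) := by
      rw [hFF]
      field_simp
      ring
    rw [h3, abs_mul, abs_of_pos (by positivity : 0 < (1 - x) ^ 2 * x)]
    have h4 := mul_le_mul_of_nonneg_left herr (by positivity : 0 ≤ (1 - x) ^ 2 * x)
    refine h4.trans ?_
    have h5 : (1 - x) ^ 2 * x * (C * (1 - x)⁻¹) = C * (1 - x) * x := by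
      field_simp
    rw [h5]
    have : 0 ≤ C * (1 - x) := by positivity
    nlinarith
  have hlim : Tendsto (fun x : ℝ => l * (x + (2 * r - 1) * x * (1 - x))) (𝓝[<] 1) (𝓝 l) := by
    have hc : Continuous fun x : ℝ => l * (x + (2 * r - 1) * x * (1 - x)) := by fun_prop
    have := (hc.tendsto 1).mono_left (nhdsWithin_le_nhds (s := Iio 1))
    simpa using this
  have hz : Tendsto (fun x : ℝ => C * (1 - x)) (𝓝[<] 1) (𝓝 0) := by
    have hc : Continuous fun x : ℝ => C * (1 - x) := by fun_prop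
    have := (hc.tendsto 1).mono_left (nhdsWithin_le_nhds (s := Iio 1))
    simpa using this
  have hdiff : Tendsto (fun x : ℝ => (1 - x) ^ 2 * FF r y x - l * (x + (2 * r - 1) * x * (1 - x)))
      (𝓝[<] 1) (𝓝 0) := by
    refine squeeze_zero_norm' ?_ hz
    have : Ioo (0 : ℝ) 1 ∈ 𝓝[<] (1 : ℝ) := Ioo_mem_nhdsLT (by norm_num)
    filter_upwards [this] with x hx
    rw [Real.norm_eq_abs]
    exact key x hx.1 hx.2
  have := hdiff.add hlim
  simpa using this

/-- **Identification of the limit.** -/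
theorem limit_eq {r : ℕ} (hr : 1 ≤ r) (hh : ∀ n : ℕ, |h n| ≤ K * (n + 1)) (hy : IsSol r y h)
    (k : ℝ → ℝ) (hk : ContinuousOn k (Icc 0 1))
    (hkh : ∀ t, 0 ≤ t → t < 1 → (1 - t) ^ 2 * YY (fun j => h (j + r)) t = k t)
    {l C : ℝ} (hC : ∀ n : ℕ, |y n - l * (n + r)| ≤ C) :
    l * Real.exp (2 * SS r 1) = ∫ t in (0 : ℝ)..1, Real.exp (2 * SS r t) *
      (2 * (1 - t) * (∑ i ∈ Finset.range r, y i * t ^ i) + k t) := by
  have hK0 : 0 ≤ K := by
    have := (abs_nonneg _).trans (hh 0)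
    simpa using this
  have hC0 : 0 ≤ C := (abs_nonneg _).trans (hC 0)
  have hlin : ∀ n : ℕ, |y n| ≤ (K + (C + |l| * (r + 1))) * (n + 1) := by
    intro n
    have h1 : |y n| ≤ |y n - l * (n + r)| + |l * (n + r)| := by
      have := abs_add_le (y n - l * (n + r)) (l * (n + r))
      simpa using this
    have hn : (0 : ℝ) ≤ n := Nat.cast_nonneg n
    have hr : (0 : ℝ) ≤ r := Nat.cast_nonneg r
    have h2 : |l * (n + r)| = |l| * (n + r) := by
      rw [abs_mul, abs_of_nonneg (by positivity : (0 : ℝ) ≤ n + r)]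
    have h3 := hC n
    have h4 : (n : ℝ) + r ≤ (r + 1) * (n + 1) := by nlinarith
    have h5 := mul_le_mul_of_nonneg_left h4 (abs_nonneg l)
    nlinarith
  have hh' : ∀ n : ℕ, |h n| ≤ (K + (C + |l| * (r + 1))) * (n + 1) := by
    intro n
    refine (hh n).trans ?_
    have : 0 ≤ (C + |l| * ((r : ℝ) + 1)) * ((n : ℝ) + 1) := by positivity
    linarith
  have hK1 : 0 ≤ K + (C + |l| * ((r : ℝ) + 1)) := by positivity
  have hW : ∀ x : ℝ, 0 ≤ x → x < 1 → WW r y x = ∫ t in (0 : ℝ)..x, Real.exp (2 * SS r t) *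
      (2 * (1 - t) * (∑ i ∈ Finset.range r, y i * t ^ i) + k t) := fun x hx0 hx1 =>
    WW_eq hr hK1 hlin hh' hy k hk hkh hx0 hx1
  -- left limit
  have hSc := SS_cont r
  have hL : Tendsto (WW r y) (𝓝[<] 1) (𝓝 (l * Real.exp (2 * SS r 1))) := by
    have h1 := FF_tendsto (r := r) hC
    have hc : Continuous fun t : ℝ => Real.exp (2 * SS r t) := by fun_prop
    have h2 := (hc.tendsto 1).mono_left (nhdsWithin_le_nhds (s := Iio 1))
    have h3 := h1.mul h2
    refine h3.congr fun x => ?_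
    unfold WW
    ring
  -- right limit
  have hcont : ContinuousOn (fun t : ℝ => Real.exp (2 * SS r t) *
      (2 * (1 - t) * (∑ i ∈ Finset.range r, y i * t ^ i) + k t)) (Icc 0 1) := by
    have hc : Continuous fun t : ℝ => Real.exp (2 * SS r t) := by fun_prop
    have hp : Continuous fun t : ℝ => 2 * (1 - t) * (∑ i ∈ Finset.range r, y i * t ^ i) := by
      fun_prop
    exact hc.continuousOn.mul (hp.continuousOn.add hk)
  have hR : Tendsto (fun x : ℝ => ∫ t in (0 : ℝ)..x, Real.exp (2 * SS r t) *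
      (2 * (1 - t) * (∑ i ∈ Finset.range r, y i * t ^ i) + k t)) (𝓝[<] 1)
      (𝓝 (∫ t in (0 : ℝ)..1, Real.exp (2 * SS r t) *
      (2 * (1 - t) * (∑ i ∈ Finset.range r, y i * t ^ i) + k t))) := by
    have hint : MeasureTheory.IntegrableOn (fun t : ℝ => Real.exp (2 * SS r t) *
      (2 * (1 - t) * (∑ i ∈ Finset.range r, y i * t ^ i) + k t)) (uIcc 0 1)
        MeasureTheory.volume := by
      rw [uIcc_of_le zero_le_one]
      exact hcont.integrableOn_compact isCompact_Icc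
    have h1 := intervalIntegral.continuousOn_primitive_interval hint
    have h2 := h1 1 right_mem_uIcc
    rw [uIcc_of_le zero_le_one] at h2
    have h3 : Tendsto (fun x : ℝ => ∫ t in (0 : ℝ)..x, Real.exp (2 * SS r t) *
      (2 * (1 - t) * (∑ i ∈ Finset.range r, y i * t ^ i) + k t)) (𝓝[Icc 0 1] 1) _ := h2
    refine h3.mono_left ?_
    rw [← nhdsWithin_Ico_eq_nhdsLT (zero_lt_one)]
    exact nhdsWithin_mono _ Ico_subset_Icc_self
  have hR' : Tendsto (WW r y) (𝓝[<] 1)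
      (𝓝 (∫ t in (0 : ℝ)..1, Real.exp (2 * SS r t) *
      (2 * (1 - t) * (∑ i ∈ Finset.range r, y i * t ^ i) + k t))) := by
    refine hR.congr' ?_
    have : Ioo (0 : ℝ) 1 ∈ 𝓝[<] (1 : ℝ) := Ioo_mem_nhdsLT (by norm_num)
    filter_upwards [this] with x hx
    exact (hW x hx.1.le hx.2).symm
  exact tendsto_nhds_unique hL hR'

end Pool.Agent.J6H73.RSA
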