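import Mathlib

/-!
# Random sequential adsorption of `r`-mers: definitions and the recursion
-/

set_option autoImplicit false

namespace Pool.Agent.J6H73.RSA

open MeasureTheory ProbabilityTheory

/-- The left ends `a` of the blocks `{a, …, a + r - 1}` all of whose sites are uncovered, where `U`
is the set of uncovered sites. -/
def freeBlocks (r : ℕ) (U : Finset ℕ) : Finset ℕ :=
  U.filter fun a => Finset.Ico a (a + r) ⊆ U

/-- The law of the number of `r`-mers deposited during the first `k` placements when `U` is the
set of uncovered sites at the start. Each placement is uniform among the blocks which are still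
entirely uncovered; when there is no such block, nothing is deposited any more. -/
noncomputable def placed (r : ℕ) : ℕ → Finset ℕ → PMF ℕ
  | 0, _ => PMF.pure 0
  | k + 1, U =>
    if h : (freeBlocks r U).Nonempty then
      (PMF.uniformOfFinset (freeBlocks r U) h).bind fun a =>
        (placed r k (U \ Finset.Ico a (a + r))).map (· + 1)
    else PMF.pure 0

/-- The law of the number `C_n` of `r`-mers in the jammed configuration on the `n` sites
`0, …, n - 1` (for `r ≥ 1` no more than `n` placements are possible). -/
noncomputable def jammed (r n : ℕ) : PMF ℕ := placed r n (Finset.range n)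

/-- expectation functional, recursive form -/
noncomputable def J (r : ℕ) : ℕ → Finset ℕ → (ℕ → ℝ) → ℝ
  | 0, _, f => f 0
  | k + 1, U, f =>
    if (freeBlocks r U).Nonempty then
      (∑ a ∈ freeBlocks r U, J r k (U \ Finset.Ico a (a + r)) fun c => f (c + 1))
        / (freeBlocks r U).card
    else f 0

lemma map_succ_zero (p : PMF ℕ) : (p.map (· + 1)) 0 = 0 := by
  rw [PMF.map_apply]
  simp

lemma map_succ_succ (p : PMF ℕ) (c : ℕ) : (p.map (· + 1)) (c + 1) = p c := by
  rw [PMF.map_apply]
  rw [tsum_eq_single c]
  · simp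
  · intro b hb
    have : ¬ (c + 1 = b + 1) := fun h => hb (by omega)
    rw [if_neg this]

lemma placed_zero_of_lt (r k : ℕ) (U : Finset ℕ) (c : ℕ) (hc : k < c) : placed r k U c = 0 := by
  induction k generalizing U c with
  | zero =>
    simp only [placed, PMF.pure_apply]
    have : c ≠ 0 := by omega
    simp [this]
  | succ k ih =>
    simp only [placed]
    obtain ⟨c', rfl⟩ : ∃ c', c = c' + 1 := ⟨c - 1, by omega⟩
    split_ifs with h
    · rw [PMF.bind_apply, ENNReal.tsum_eq_zero]
      intro a
      rw [map_succ_succ, ih _ _ (by omega), mul_zero]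
    · simp

/-- finite expectation -/
noncomputable def Ex (p : PMF ℕ) (N : ℕ) (f : ℕ → ℝ) : ℝ :=
  ∑ c ∈ Finset.range N, (p c).toReal * f c

lemma Ex_placed (r k : ℕ) (U : Finset ℕ) (f : ℕ → ℝ) :
    Ex (placed r k U) (k + 1) f = J r k U f := by
  induction k generalizing U f with
  | zero =>
    simp [Ex, placed, J]
  | succ k ih =>
    simp only [J]
    split_ifs with h
    · have hcard : ((freeBlocks r U).card : ℝ) ≠ 0 := by
        exact_mod_cast h.card_pos.ne'
      have h1 : ∀ c, (placed r (k + 1) U c).toReal =
          (∑ a ∈ freeBlocks r U, ((placed r k (U \ Finset.Ico a (a + r))).map (· + 1) c).toReal)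
            / (freeBlocks r U).card := by
        intro c
        simp only [placed, dif_pos h]
        rw [PMF.bind_apply, tsum_eq_sum (s := freeBlocks r U)]
        · rw [ENNReal.toReal_sum, Finset.sum_div]
          · refine Finset.sum_congr rfl fun a ha => ?_
            rw [PMF.uniformOfFinset_apply_of_mem h ha, ENNReal.toReal_mul, ENNReal.toReal_inv,
              ENNReal.toReal_natCast]
            field_simp
          · intro a ha
            exact ENNReal.mul_ne_top (PMF.apply_ne_top _ _) (PMF.apply_ne_top _ _)
        · intro a ha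
          rw [PMF.uniformOfFinset_apply_of_notMem h ha, zero_mul]
      unfold Ex
      rw [Finset.sum_range_succ']
      simp only [h1, map_succ_zero, map_succ_succ]
      simp only [ENNReal.toReal_zero, Finset.sum_const_zero, zero_div, zero_mul, add_zero]
      have h2 : ∀ a, ∑ c ∈ Finset.range (k + 1),
          (placed r k (U \ Finset.Ico a (a + r)) c).toReal * f (c + 1) =
            J r k (U \ Finset.Ico a (a + r)) fun c => f (c + 1) := fun a => ih _ _
      simp only [← h2]
      rw [Finset.sum_comm, Finset.sum_div]
      refine Finset.sum_congr rfl fun c _ => ?_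
      rw [div_mul_eq_mul_div, Finset.sum_mul]
    · unfold Ex
      simp only [placed, dif_neg h, PMF.pure_apply]
      rw [Finset.sum_eq_single 0]
      · simp
      · intro b _ hb
        simp [hb]
      · simp

lemma ae_le (r k : ℕ) (U : Finset ℕ) : ∀ᵐ c ∂(placed r k U).toMeasure, c ≤ k := by
  rw [ae_iff, PMF.toMeasure_apply _ (MeasurableSet.of_discrete), ENNReal.tsum_eq_zero]
  intro c
  by_cases hc : c ≤ k
  · simp [hc]
  · have := placed_zero_of_lt r k U c (by omega)
    simp [this]

lemma integrable_placed (r k : ℕ) (U : Finset ℕ) (f : ℕ → ℝ) :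
    Integrable f (placed r k U).toMeasure := by
  refine Integrable.of_bound (measurable_of_countable f).aestronglyMeasurable
    (∑ c ∈ Finset.range (k + 1), |f c|) ?_
  filter_upwards [ae_le r k U] with c hc
  rw [Real.norm_eq_abs]
  exact Finset.single_le_sum (f := fun c => |f c|) (fun _ _ => abs_nonneg _)
    (Finset.mem_range.mpr (by omega))

lemma integral_placed (r k : ℕ) (U : Finset ℕ) (f : ℕ → ℝ) :
    ∫ c, f c ∂(placed r k U).toMeasure = J r k U f := by
  rw [PMF.integral_eq_tsum _ _ (integrable_placed r k U f), ← Ex_placed,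
    tsum_eq_sum (s := Finset.range (k + 1))]
  · simp [Ex]
  · intro c hc
    rw [Finset.mem_range, not_lt] at hc
    rw [placed_zero_of_lt r k U c (by omega)]
    simp

lemma variance_placed (r k : ℕ) (U : Finset ℕ) :
    Var[fun c : ℕ => (c : ℝ); (placed r k U).toMeasure] =
      J r k U (fun c => (c : ℝ) ^ 2) - (J r k U fun c => (c : ℝ)) ^ 2 := by
  have hX : MemLp (fun c : ℕ => (c : ℝ)) 2 (placed r k U).toMeasure := by
    refine MemLp.of_bound (measurable_of_countable _).aestronglyMeasurable (k : ℝ) ?_
    filter_upwards [ae_le r k U] with c hc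
    rw [Real.norm_eq_abs, abs_of_nonneg (Nat.cast_nonneg c)]
    exact_mod_cast hc
  rw [variance_eq_sub hX]
  have h1 : (placed r k U).toMeasure[(fun c : ℕ => (c : ℝ)) ^ 2] =
      J r k U (fun c => (c : ℝ) ^ 2) := by
    rw [← integral_placed]
    rfl
  rw [h1, integral_placed]

/-! ### Linearity -/

lemma J_sum (r k : ℕ) (U : Finset ℕ) {ι : Type*} (s : Finset ι) (h : ι → ℕ → ℝ) :
    J r k U (fun c => ∑ i ∈ s, h i c) = ∑ i ∈ s, J r k U (h i) := by
  induction k generalizing U h with
  | zero => simp [J]
  | succ k ih =>
    simp only [J]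
    split_ifs with hne
    · simp only [ih]
      rw [← Finset.sum_div, Finset.sum_comm]
    · rfl

lemma J_smul (r k : ℕ) (U : Finset ℕ) (t : ℝ) (f : ℕ → ℝ) :
    J r k U (fun c => t * f c) = t * J r k U f := by
  induction k generalizing U f with
  | zero => simp [J]
  | succ k ih =>
    simp only [J]
    split_ifs with hne
    · simp only [ih]
      rw [← Finset.mul_sum, mul_div_assoc]
    · rfl

lemma J_const (r k : ℕ) (U : Finset ℕ) (t : ℝ) : J r k U (fun _ => t) = t := by
  induction k generalizing U with
  | zero => simp [J]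
  | succ k ih =>
    simp only [J]
    split_ifs with hne
    · simp only [ih]
      have hcard : ((freeBlocks r U).card : ℝ) ≠ 0 := by
        exact_mod_cast hne.card_pos.ne'
      rw [Finset.sum_const, nsmul_eq_mul]
      field_simp
    · rfl

lemma J_add (r k : ℕ) (U : Finset ℕ) (f g : ℕ → ℝ) :
    J r k U (fun c => f c + g c) = J r k U f + J r k U g := by
  have := J_sum r k U (Finset.univ : Finset (Fin 2)) ![f, g]
  simpa [Fin.sum_univ_two] using this

/-! ### Stability in the number of steps -/

lemma card_sdiff_lt {r : ℕ} (hr : 1 ≤ r) {U : Finset ℕ} {a : ℕ} (ha : a ∈ freeBlocks r U) :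
    (U \ Finset.Ico a (a + r)).card < U.card := by
  refine Finset.card_lt_card ?_
  rw [Finset.ssubset_iff_of_subset Finset.sdiff_subset]
  refine ⟨a, (Finset.mem_filter.mp ha).1, ?_⟩
  simp only [Finset.mem_sdiff, Finset.mem_Ico, not_and]
  intro _
  omega

lemma J_stable {r : ℕ} (hr : 1 ≤ r) (k : ℕ) (U : Finset ℕ) (hk : U.card ≤ k) (f : ℕ → ℝ) :
    J r k U f = J r U.card U f := by
  have key : ∀ k (U : Finset ℕ), U.card ≤ k → ∀ f : ℕ → ℝ, J r (k + 1) U f = J r k U f := by
    intro k
    induction k with
    | zero =>
      intro U hU f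
      have : U = ∅ := Finset.card_eq_zero.mp (by omega)
      subst this
      simp [J, freeBlocks]
    | succ k ih =>
      intro U hU f
      rw [J, J]
      split_ifs with h
      · congr 1
        refine Finset.sum_congr rfl fun a ha => ?_
        have := card_sdiff_lt hr ha
        exact ih _ (by omega) _
      · rfl
  induction k, hk using Nat.le_induction with
  | base => rfl
  | succ k hk ih => rw [key k U hk, ih]

/-- the stable expectation functional -/
noncomputable def I (r : ℕ) (U : Finset ℕ) (f : ℕ → ℝ) : ℝ := J r U.card U f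

lemma I_empty {r : ℕ} {U : Finset ℕ} (h : ¬ (freeBlocks r U).Nonempty) (f : ℕ → ℝ) :
    I r U f = f 0 := by
  unfold I
  cases hU : U.card with
  | zero => rfl
  | succ k => simp only [J, if_neg h]

lemma I_rec {r : ℕ} (hr : 1 ≤ r) (U : Finset ℕ) (f : ℕ → ℝ) :
    ((freeBlocks r U).card : ℝ) * I r U f =
      ∑ a ∈ freeBlocks r U, I r (U \ Finset.Ico a (a + r)) (fun c => f (c + 1)) := by
  by_cases h : (freeBlocks r U).Nonempty
  · have hcard : ((freeBlocks r U).card : ℝ) ≠ 0 := by
      exact_mod_cast h.card_pos.ne'
    unfold I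
    have hU : ∃ k, U.card = k + 1 := by
      obtain ⟨a, ha⟩ := h
      have : 0 < U.card := Finset.card_pos.mpr ⟨a, (Finset.mem_filter.mp ha).1⟩
      exact ⟨U.card - 1, by omega⟩
    obtain ⟨k, hk⟩ := hU
    rw [hk, J, if_pos h, mul_div_cancel₀ _ hcard]
    refine Finset.sum_congr rfl fun a ha => ?_
    have := card_sdiff_lt hr ha
    exact J_stable hr k _ (by omega) _
  · rw [Finset.not_nonempty_iff_eq_empty] at h
    simp [h]

lemma I_sum (r : ℕ) (U : Finset ℕ) {ι : Type*} (s : Finset ι) (h : ι → ℕ → ℝ) :
    I r U (fun c => ∑ i ∈ s, h i c) = ∑ i ∈ s, I r U (h i) := J_sum _ _ _ _ _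

lemma I_smul (r : ℕ) (U : Finset ℕ) (t : ℝ) (f : ℕ → ℝ) :
    I r U (fun c => t * f c) = t * I r U f := J_smul _ _ _ _ _

lemma I_const (r : ℕ) (U : Finset ℕ) (t : ℝ) : I r U (fun _ => t) = t := J_const _ _ _ _

lemma I_add (r : ℕ) (U : Finset ℕ) (f g : ℕ → ℝ) :
    I r U (fun c => f c + g c) = I r U f + I r U g := J_add _ _ _ _ _

/-! ### Independence of separated parts -/

lemma blocks_union {r : ℕ} (hr : 1 ≤ r) {s : ℕ} {U V : Finset ℕ} (hU : ∀ x ∈ U, x < s)
    (hV : ∀ x ∈ V, s < x) : freeBlocks r (U ∪ V) = freeBlocks r U ∪ freeBlocks r V := by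
  ext a
  simp only [freeBlocks, Finset.mem_filter, Finset.mem_union]
  constructor
  · rintro ⟨ha | ha, hsub⟩
    · left
      refine ⟨ha, fun x hx => ?_⟩
      rcases Finset.mem_union.mp (hsub hx) with h | h
      · exact h
      · exfalso
        -- then s lies in the block
        have h1 := hU a ha
        have h2 := hV x h
        rw [Finset.mem_Ico] at hx
        have h3 : s ∈ U ∪ V := hsub (Finset.mem_Ico.mpr ⟨h1.le, by omega⟩)
        rcases Finset.mem_union.mp h3 with h | h
        · exact absurd (hU s h) (lt_irrefl _)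
        · exact absurd (hV s h) (lt_irrefl _)
    · right
      refine ⟨ha, fun x hx => ?_⟩
      rcases Finset.mem_union.mp (hsub hx) with h | h
      · exfalso
        have h1 := hV a ha
        have h2 := hU x h
        rw [Finset.mem_Ico] at hx
        omega
      · exact h
  · rintro (⟨ha, hsub⟩ | ⟨ha, hsub⟩)
    · exact ⟨Or.inl ha, hsub.trans Finset.subset_union_left⟩
    · exact ⟨Or.inr ha, hsub.trans Finset.subset_union_right⟩

lemma I_union {r : ℕ} (hr : 1 ≤ r) (s : ℕ) (N : ℕ) : ∀ U V : Finset ℕ, U.card + V.card ≤ N →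
    (∀ x ∈ U, x < s) → (∀ x ∈ V, s < x) → ∀ f : ℕ → ℝ,
    I r (U ∪ V) f = I r U (fun c => I r V fun c' => f (c + c')) := by
  induction N with
  | zero =>
    intro U V hN hU hV f
    have h1 : U = ∅ := Finset.card_eq_zero.mp (by omega)
    have h2 : V = ∅ := Finset.card_eq_zero.mp (by omega)
    subst h1 h2
    simp [I, J]
  | succ N ih =>
    intro U V hN hU hV f
    have hb := blocks_union hr hU hV
    have hdisj : Disjoint (freeBlocks r U) (freeBlocks r V) := by
      rw [Finset.disjoint_left]
      intro a ha hb
      have h1 := hU a (Finset.mem_filter.mp ha).1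
      have h2 := hV a (Finset.mem_filter.mp hb).1
      omega
    have hcard : (freeBlocks r (U ∪ V)).card = (freeBlocks r U).card + (freeBlocks r V).card := by
      rw [hb, Finset.card_union_of_disjoint hdisj]
    by_cases hne : (freeBlocks r (U ∪ V)).Nonempty
    · have h1 := I_rec hr (U ∪ V) f
      rw [hb, Finset.sum_union hdisj] at h1
      -- first sum
      have hS1 : ∑ a ∈ freeBlocks r U, I r ((U ∪ V) \ Finset.Ico a (a + r)) (fun c => f (c + 1)) =
          ((freeBlocks r U).card : ℝ) * I r U (fun c => I r V fun c' => f (c + c')) := by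
        rw [I_rec hr U]
        refine Finset.sum_congr rfl fun a ha => ?_
        have h2 : (U ∪ V) \ Finset.Ico a (a + r) = (U \ Finset.Ico a (a + r)) ∪ V := by
          rw [Finset.union_sdiff_distrib]
          congr 1
          rw [Finset.sdiff_eq_self_iff_disjoint, Finset.disjoint_left]
          intro x hxV hx
          have h3 := hV x hxV
          have h4 := (Finset.mem_filter.mp ha).2 hx
          have h5 := hU x h4
          omega
        have h3 := card_sdiff_lt hr ha
        rw [h2, ih (U \ Finset.Ico a (a + r)) V (by omega)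
          (fun x hx => hU x (Finset.mem_sdiff.mp hx).1) hV]
        congr 1
        funext c
        congr 1
        funext c'
        congr 1
        ring
      have hS2 : ∑ a ∈ freeBlocks r V, I r ((U ∪ V) \ Finset.Ico a (a + r)) (fun c => f (c + 1)) =
          ((freeBlocks r V).card : ℝ) * I r U (fun c => I r V fun c' => f (c + c')) := by
        rw [← I_smul]
        have h5 : (fun c => ((freeBlocks r V).card : ℝ) * I r V fun c' => f (c + c')) =
            fun c => ∑ a ∈ freeBlocks r V,
              I r (V \ Finset.Ico a (a + r)) (fun c' => f (c + (c' + 1))) := by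
          funext c
          rw [I_rec hr V]
        rw [h5, I_sum]
        refine Finset.sum_congr rfl fun a ha => ?_
        have h2 : (U ∪ V) \ Finset.Ico a (a + r) = U ∪ (V \ Finset.Ico a (a + r)) := by
          rw [Finset.union_sdiff_distrib]
          congr 1
          rw [Finset.sdiff_eq_self_iff_disjoint, Finset.disjoint_left]
          intro x hxU hx
          have h3 := hU x hxU
          have h4 := (Finset.mem_filter.mp ha).2 hx
          have h5 := hV x h4
          omega
        have h3 := card_sdiff_lt hr ha
        rw [h2, ih U (V \ Finset.Ico a (a + r)) (by omega) hU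
          (fun x hx => hV x (Finset.mem_sdiff.mp hx).1)]
        rfl
      rw [hS1, hS2, ← add_mul] at h1
      have h6 : (((freeBlocks r U ∪ freeBlocks r V).card : ℕ) : ℝ) =
          ((freeBlocks r U).card : ℝ) + ((freeBlocks r V).card : ℝ) := by
        rw [← hb, hcard]
        push_cast
        ring
      rw [h6] at h1
      have hpos : (0 : ℝ) < ((freeBlocks r U).card : ℝ) + ((freeBlocks r V).card : ℝ) := by
        have := hne.card_pos
        rw [hcard] at this
        exact_mod_cast this
      exact mul_left_cancel₀ hpos.ne' h1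
    · rw [I_empty hne]
      rw [hb, Finset.not_nonempty_iff_eq_empty, Finset.union_eq_empty] at hne
      rw [I_empty (by rw [hne.1]; simp), I_empty (by rw [hne.2]; simp)]

/-! ### Translation invariance -/

lemma blocks_shift (r t : ℕ) (U : Finset ℕ) :
    freeBlocks r (U.map (addRightEmbedding t)) = (freeBlocks r U).map (addRightEmbedding t) := by
  ext a
  simp only [freeBlocks, Finset.mem_filter, Finset.mem_map, addRightEmbedding_apply]
  constructor
  · rintro ⟨⟨b, hb, rfl⟩, hsub⟩
    refine ⟨b, ⟨hb, fun x hx => ?_⟩, rfl⟩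
    rw [Finset.mem_Ico] at hx
    have := hsub (Finset.mem_Ico.mpr ⟨(by omega : b + t ≤ x + t), by omega⟩)
    obtain ⟨y, hy, hxy⟩ := Finset.mem_map.mp this
    rw [addRightEmbedding_apply] at hxy
    have : y = x := by omega
    rwa [this] at hy
  · rintro ⟨b, ⟨hb, hsub⟩, rfl⟩
    refine ⟨⟨b, hb, rfl⟩, fun x hx => ?_⟩
    rw [Finset.mem_Ico] at hx
    refine Finset.mem_map.mpr ⟨x - t, hsub (Finset.mem_Ico.mpr ⟨by omega, by omega⟩), ?_⟩
    rw [addRightEmbedding_apply]
    omega

lemma J_shift (r t : ℕ) (k : ℕ) (U : Finset ℕ) (f : ℕ → ℝ) :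
    J r k (U.map (addRightEmbedding t)) f = J r k U f := by
  induction k generalizing U f with
  | zero => rfl
  | succ k ih =>
    simp only [J, blocks_shift, Finset.map_nonempty, Finset.card_map, Finset.sum_map]
    split_ifs with h
    · congr 1
      refine Finset.sum_congr rfl fun a _ => ?_
      have : U.map (addRightEmbedding t) \
          Finset.Ico (addRightEmbedding t a) (addRightEmbedding t a + r) =
          (U \ Finset.Ico a (a + r)).map (addRightEmbedding t) := by
        rw [Finset.map_sdiff]
        congr 1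
        ext x
        simp only [addRightEmbedding_apply, Finset.mem_Ico, Finset.mem_map]
        constructor
        · intro hx
          exact ⟨x - t, by omega, by omega⟩
        · rintro ⟨y, hy, rfl⟩
          omega
      rw [this, ih]
    · rfl

lemma I_shift (r t : ℕ) (U : Finset ℕ) (f : ℕ → ℝ) :
    I r (U.map (addRightEmbedding t)) f = I r U f := by
  unfold I
  rw [Finset.card_map, J_shift]

/-! ### The recursion on intervals -/

/-- expectation of `f (C_n)` -/
noncomputable def E (r n : ℕ) (f : ℕ → ℝ) : ℝ := I r (Finset.range n) f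

lemma blocks_range {r : ℕ} (hr : 1 ≤ r) (n : ℕ) :
    freeBlocks r (Finset.range n) = Finset.range (n + 1 - r) := by
  ext a
  simp only [freeBlocks, Finset.mem_filter, Finset.mem_range]
  constructor
  · rintro ⟨ha, hsub⟩
    have := hsub (Finset.mem_Ico.mpr ⟨(by omega : a ≤ a + r - 1), by omega⟩)
    rw [Finset.mem_range] at this
    omega
  · intro ha
    refine ⟨by omega, fun x hx => ?_⟩
    rw [Finset.mem_Ico] at hx
    rw [Finset.mem_range]
    omega

lemma range_sdiff {r : ℕ} (n a : ℕ) (ha : a + r ≤ n) :
    Finset.range n \ Finset.Ico a (a + r) =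
      Finset.range a ∪ (Finset.range (n - r - a)).map (addRightEmbedding (a + r)) := by
  ext x
  simp only [Finset.mem_sdiff, Finset.mem_range, Finset.mem_Ico, Finset.mem_union, Finset.mem_map,
    addRightEmbedding_apply]
  constructor
  · intro h
    by_cases hx : x < a
    · exact Or.inl hx
    · right
      exact ⟨x - (a + r), by omega, by omega⟩
  · rintro (h | ⟨y, hy, rfl⟩)
    · omega
    · omega

lemma E_small {r : ℕ} (hr : 1 ≤ r) {n : ℕ} (hn : n < r) (f : ℕ → ℝ) : E r n f = f 0 := by
  unfold E
  refine I_empty ?_ f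
  rw [blocks_range hr, show n + 1 - r = 0 by omega]
  simp

lemma E_rec {r : ℕ} (hr : 1 ≤ r) {n : ℕ} (hn : r ≤ n) (f : ℕ → ℝ) :
    ((n + 1 - r : ℕ) : ℝ) * E r n f =
      ∑ i ∈ Finset.range (n + 1 - r), E r i (fun c => E r (n - r - i) fun c' => f (c + c' + 1)) := by
  have h1 := I_rec hr (Finset.range n) f
  rw [blocks_range hr, Finset.card_range] at h1
  unfold E
  rw [h1]
  refine Finset.sum_congr rfl fun a ha => ?_
  rw [Finset.mem_range] at ha
  rw [range_sdiff n a (by omega)]
  rw [I_union hr (a) _ _ _ le_rfl]
  · congr 1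
    funext c
    rw [I_shift]
  · intro x hx
    exact Finset.mem_range.mp hx
  · intro x hx
    obtain ⟨y, hy, rfl⟩ := Finset.mem_map.mp hx
    rw [addRightEmbedding_apply]
    omega

end Pool.Agent.J6H73.RSA

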