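import Mathlib
import Pool.Agent.J6H73.RSA.Proc

/-!
# Random sequential adsorption of `r`-mers: recursions for the centred moments
-/

set_option autoImplicit false

namespace Pool.Agent.J6H73.RSA

open MeasureTheory ProbabilityTheory

lemma E_sum (r n : ℕ) {ι : Type*} (s : Finset ι) (h : ι → ℕ → ℝ) :
    E r n (fun c => ∑ i ∈ s, h i c) = ∑ i ∈ s, E r n (h i) := I_sum _ _ _ _

lemma E_smul (r n : ℕ) (t : ℝ) (f : ℕ → ℝ) : E r n (fun c => t * f c) = t * E r n f :=
  I_smul _ _ _ _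

lemma E_const (r n : ℕ) (t : ℝ) : E r n (fun _ => t) = t := I_const _ _ _

lemma E_add (r n : ℕ) (f g : ℕ → ℝ) : E r n (fun c => f c + g c) = E r n f + E r n g :=
  I_add _ _ _ _

lemma E_mul_const (r n : ℕ) (t : ℝ) (f : ℕ → ℝ) : E r n (fun c => f c * t) = E r n f * t := by
  have := E_smul r n t f
  simp only [mul_comm t] at this
  exact this

/-- mean of the count minus the linear solution `a (n + r) - 1` -/
noncomputable def dd (r : ℕ) (a : ℝ) (n : ℕ) : ℝ := E r n fun c => (c : ℝ) - a * (n + r) + 1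

/-- second moment of the same difference -/
noncomputable def vv (r : ℕ) (a : ℝ) (n : ℕ) : ℝ := E r n fun c => ((c : ℝ) - a * (n + r) + 1) ^ 2

lemma sum_reflect (N : ℕ) (g : ℕ → ℝ) :
    ∑ i ∈ Finset.range (N + 1), g (N - i) = ∑ i ∈ Finset.range (N + 1), g i := by
  have := Finset.sum_range_reflect g (N + 1)
  rw [← this]
  refine Finset.sum_congr rfl fun i hi => ?_
  congr 1

variable {r : ℕ} (hr : 1 ≤ r) (a : ℝ)

include hr in
lemma dd_rec {n : ℕ} (hn : r ≤ n) :
    ((n + 1 - r : ℕ) : ℝ) * dd r a n = 2 * ∑ i ∈ Finset.range (n + 1 - r), dd r a i := by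
  unfold dd
  rw [E_rec hr hn]
  have h1 : ∀ i ∈ Finset.range (n + 1 - r),
      E r i (fun c => E r (n - r - i) fun c' => ((c + c' + 1 : ℕ) : ℝ) - a * (n + r) + 1) =
        dd r a i + dd r a (n - r - i) := by
    intro i hi
    rw [Finset.mem_range] at hi
    have h2 : ((n - r - i : ℕ) : ℝ) = n - r - i := by
      rw [Nat.cast_sub (by omega), Nat.cast_sub hn]
    have h3 : ∀ c c' : ℕ, ((c + c' + 1 : ℕ) : ℝ) - a * (n + r) + 1 =
        ((c : ℝ) - a * (i + r) + 1) + ((c' : ℝ) - a * ((n - r - i : ℕ) + r) + 1) := by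
      intro c c'
      rw [h2]
      push_cast
      ring
    simp only [h3]
    have h4 : ∀ c : ℕ, E r (n - r - i) (fun c' : ℕ => ((c : ℝ) - a * (i + r) + 1) +
        ((c' : ℝ) - a * ((n - r - i : ℕ) + r) + 1)) =
        ((c : ℝ) - a * (i + r) + 1) + dd r a (n - r - i) := by
      intro c
      rw [E_add, E_const]
      rfl
    simp only [h4]
    rw [E_add, E_const]
    rfl
  rw [Finset.sum_congr rfl h1, Finset.sum_add_distrib]
  have h5 : n + 1 - r = (n - r) + 1 := by omega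
  rw [h5, sum_reflect (n - r) (dd r a)]
  unfold dd
  ring

include hr in
lemma vv_rec {n : ℕ} (hn : r ≤ n) :
    ((n + 1 - r : ℕ) : ℝ) * vv r a n = 2 * ∑ i ∈ Finset.range (n + 1 - r), vv r a i +
      2 * ∑ i ∈ Finset.range (n + 1 - r), dd r a i * dd r a (n - r - i) := by
  unfold vv
  rw [E_rec hr hn]
  have h1 : ∀ i ∈ Finset.range (n + 1 - r),
      E r i (fun c => E r (n - r - i) fun c' => (((c + c' + 1 : ℕ) : ℝ) - a * (n + r) + 1) ^ 2) =
        vv r a i + vv r a (n - r - i) + 2 * (dd r a i * dd r a (n - r - i)) := by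
    intro i hi
    rw [Finset.mem_range] at hi
    have h2 : ((n - r - i : ℕ) : ℝ) = n - r - i := by
      rw [Nat.cast_sub (by omega), Nat.cast_sub hn]
    have h3 : ∀ c c' : ℕ, (((c + c' + 1 : ℕ) : ℝ) - a * (n + r) + 1) ^ 2 =
        ((c : ℝ) - a * (i + r) + 1) ^ 2 + (((c' : ℝ) - a * ((n - r - i : ℕ) + r) + 1) ^ 2 +
          (2 * ((c : ℝ) - a * (i + r) + 1)) * ((c' : ℝ) - a * ((n - r - i : ℕ) + r) + 1)) := by
      intro c c'
      rw [h2]
      push_cast
      ring
    simp only [h3]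
    have h4 : ∀ c : ℕ, E r (n - r - i) (fun c' : ℕ => ((c : ℝ) - a * (i + r) + 1) ^ 2 +
        (((c' : ℝ) - a * ((n - r - i : ℕ) + r) + 1) ^ 2 +
          (2 * ((c : ℝ) - a * (i + r) + 1)) * ((c' : ℝ) - a * ((n - r - i : ℕ) + r) + 1))) =
        ((c : ℝ) - a * (i + r) + 1) ^ 2 + (vv r a (n - r - i) +
          2 * dd r a (n - r - i) * ((c : ℝ) - a * (i + r) + 1)) := by
      intro c
      rw [E_add, E_const, E_add, E_smul]
      unfold vv dd
      ring
    simp only [h4]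
    rw [E_add, E_add, E_const, E_smul]
    unfold vv dd
    ring
  rw [Finset.sum_congr rfl h1, Finset.sum_add_distrib, Finset.sum_add_distrib, ← Finset.mul_sum]
  have h5 : n + 1 - r = (n - r) + 1 := by omega
  rw [h5, sum_reflect (n - r) (vv r a)]
  unfold vv
  ring

include hr in
lemma dd_small {n : ℕ} (hn : n < r) : dd r a n = 1 - a * (n + r) := by
  unfold dd
  rw [E_small hr hn]
  simp
  ring

include hr in
lemma vv_small {n : ℕ} (hn : n < r) : vv r a n = (1 - a * (n + r)) ^ 2 := by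
  unfold vv
  rw [E_small hr hn]
  simp
  ring

lemma J_eq_E (r n : ℕ) (f : ℕ → ℝ) : J r n (Finset.range n) f = E r n f := by
  unfold E I
  rw [Finset.card_range]

lemma E_one (r : ℕ) (a : ℝ) (n : ℕ) :
    E r n (fun c : ℕ => (c : ℝ)) = dd r a n + (a * (n + r) - 1) := by
  have h1 : (fun c : ℕ => (c : ℝ)) = fun c : ℕ =>
      ((c : ℝ) - a * (n + r) + 1) + (a * (n + r) - 1) := by
    funext c
    ring
  calc E r n (fun c : ℕ => (c : ℝ))
      = E r n (fun c : ℕ => ((c : ℝ) - a * (n + r) + 1) + (a * (n + r) - 1)) := by rw [← h1]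
    _ = _ := by rw [E_add, E_const]; rfl

lemma E_two (r : ℕ) (a : ℝ) (n : ℕ) :
    E r n (fun c : ℕ => (c : ℝ) ^ 2) = vv r a n + 2 * (a * (n + r) - 1) * dd r a n
      + (a * (n + r) - 1) ^ 2 := by
  have h2 : (fun c : ℕ => (c : ℝ) ^ 2) = fun c : ℕ => ((c : ℝ) - a * (n + r) + 1) ^ 2 +
      ((2 * (a * (n + r) - 1)) * ((c : ℝ) - a * (n + r) + 1) + (a * (n + r) - 1) ^ 2) := by
    funext c
    ring
  rw [h2, E_add, E_add, E_smul, E_const]
  unfold vv dd
  ring

/-- the mean -/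
lemma mean_eq (r : ℕ) (a : ℝ) (n : ℕ) :
    ∫ c, (c : ℝ) ∂(jammed r n).toMeasure = dd r a n + a * (n + r) - 1 := by
  unfold jammed
  rw [integral_placed, J_eq_E]
  have := E_one r a n
  rw [this]
  ring

/-- the variance -/
lemma var_eq (r : ℕ) (a : ℝ) (n : ℕ) :
    Var[fun c : ℕ => (c : ℝ); (jammed r n).toMeasure] = vv r a n - dd r a n ^ 2 := by
  unfold jammed
  rw [variance_placed, J_eq_E, J_eq_E, E_one r a, E_two r a]
  ring

end Pool.Agent.J6H73.RSA
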