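import Mathlib
import Pool.Agent.J6H73.RSA.Mom
import Pool.Agent.J6H73.RSA.Gen

/-!
# Random sequential adsorption of `r`-mers: the limit of the variance
-/

set_option autoImplicit false

namespace Pool.Agent.J6H73.RSA

open Filter Topology Set MeasureTheory ProbabilityTheory

variable {r : ℕ}

/-- the mean count -/
noncomputable def mm (r n : ℕ) : ℝ := dd r 0 n - 1

lemma dd_eq (r : ℕ) (a : ℝ) (n : ℕ) : dd r a n = mm r n - a * (n + r) + 1 := by
  unfold mm
  have h1 := E_one r a n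
  have h2 := E_one r 0 n
  linarith

lemma mm_small (hr : 1 ≤ r) {n : ℕ} (hn : n < r) : mm r n = 0 := by
  unfold mm
  rw [dd_small hr 0 hn]
  ring

lemma mm_sol (hr : 1 ≤ r) : IsSol r (mm r) (fun n => ((n + 1 - r : ℕ) : ℝ)) := by
  intro n hn
  have h1 := dd_rec hr 0 hn
  unfold mm
  rw [Finset.sum_sub_distrib]
  simp only [Finset.sum_const, Finset.card_range, nsmul_eq_mul, mul_one]
  linarith

lemma dd_sol (hr : 1 ≤ r) (a : ℝ) : IsSol r (dd r a) (fun _ => 0) := by
  intro n hn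
  rw [dd_rec hr a hn, add_zero]

/-- convolution of the means -/
noncomputable def cc (r : ℕ) (a : ℝ) (n : ℕ) : ℝ :=
  2 * ∑ i ∈ Finset.range (n + 1 - r), dd r a i * dd r a (n - r - i)

lemma vv_sol (hr : 1 ≤ r) (a : ℝ) : IsSol r (vv r a) (cc r a) := by
  intro n hn
  rw [vv_rec hr a hn]
  rfl

/-- the limit of the density of `r`-mers -/
noncomputable def aa (r : ℕ) : ℝ :=
  Real.exp (-(2 * SS r 1)) * ∫ t in (0 : ℝ)..1, Real.exp (2 * SS r t)

lemma geom_one {t : ℝ} (ht : |t| < 1) : (1 - t) ^ 2 * YY (fun j => ((j + 1 : ℕ) : ℝ)) t = 1 := by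
  have hnorm : ‖t‖ < 1 := by rwa [Real.norm_eq_abs]
  have hg0 : ∑' j : ℕ, t ^ j = (1 - t)⁻¹ := tsum_geometric_of_norm_lt_one hnorm
  have hg1 : ∑' j : ℕ, ((j : ℝ)) * t ^ j = t / (1 - t) ^ 2 :=
    tsum_coe_mul_geometric_of_norm_lt_one hnorm
  have hs0 : Summable fun j : ℕ => t ^ j := summable_geometric_of_norm_lt_one hnorm
  have hs1 : Summable fun j : ℕ => (j : ℝ) * t ^ j := by
    simpa using summable_pow_mul_geometric_of_norm_lt_one 1 hnorm
  have h1 : 1 - t ≠ 0 := by
    have := (abs_lt.mp ht).2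
    linarith
  unfold YY
  have h2 : ∀ j : ℕ, ((j + 1 : ℕ) : ℝ) * t ^ j = (j : ℝ) * t ^ j + t ^ j := by
    intro j
    push_cast
    ring
  simp only [h2]
  rw [Summable.tsum_add hs1 hs0, hg0, hg1]
  field_simp
  ring

lemma mm_asym (hr : 1 ≤ r) : ∃ C : ℝ, 0 ≤ C ∧ ∀ n : ℕ, |mm r n - aa r * (n + r)| ≤ C := by
  have hK : ∀ n : ℕ, |((n + 1 + 1 - r : ℕ) : ℝ) - ((n + 1 - r : ℕ) : ℝ)| ≤ 1 := by
    intro n
    rcases le_or_gt r (n + 1) with h | h
    · rw [Nat.cast_sub (by omega), Nat.cast_sub h]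
      push_cast
      ring_nf
      simp
    · have h1 : n + 1 - r = 0 := by omega
      rw [h1]
      have h2 : n + 1 + 1 - r ≤ 1 := by omega
      have h3 : ((n + 1 + 1 - r : ℕ) : ℝ) ≤ 1 := by exact_mod_cast h2
      have h4 : (0 : ℝ) ≤ ((n + 1 + 1 - r : ℕ) : ℝ) := Nat.cast_nonneg _
      rw [Nat.cast_zero, sub_zero, abs_of_nonneg h4]
      exact h3
  obtain ⟨l, C, hC0, hC⟩ := asym_inhom hr (mm_sol hr) hK
  have hh : ∀ n : ℕ, |(fun n : ℕ => ((n + 1 - r : ℕ) : ℝ)) n| ≤ 1 * (n + 1) := by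
    intro n
    simp only
    rw [abs_of_nonneg (Nat.cast_nonneg _), one_mul]
    have : n + 1 - r ≤ n + 1 := Nat.sub_le _ _
    exact_mod_cast this
  have h1 := limit_eq hr hh (mm_sol hr) (fun _ => 1) continuousOn_const ?_ hC
  · have h2 : l = aa r := by
      have h3 : ∫ t in (0 : ℝ)..1, Real.exp (2 * SS r t) *
          (2 * (1 - t) * (∑ i ∈ Finset.range r, mm r i * t ^ i) + 1) =
          ∫ t in (0 : ℝ)..1, Real.exp (2 * SS r t) := by
        congr 1
        funext t
        have : ∑ i ∈ Finset.range r, mm r i * t ^ i = 0 := by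
          refine Finset.sum_eq_zero fun i hi => ?_
          rw [mm_small hr (Finset.mem_range.mp hi), zero_mul]
        rw [this]
        ring
      rw [h3] at h1
      unfold aa
      rw [← h1, mul_comm l, ← mul_assoc, ← Real.exp_add]
      simp
    rw [h2] at hC
    exact ⟨C, hC0, hC⟩
  · intro t ht0 ht1
    have habs : |t| < 1 := by rwa [abs_of_nonneg ht0]
    refine Eq.trans ?_ (geom_one habs)
    congr 2
    funext j
    show ((j + r + 1 - r : ℕ) : ℝ) = ((j + 1 : ℕ) : ℝ)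
    congr 1
    omega

lemma WW_mm (hr : 1 ≤ r) {x : ℝ} (hx0 : 0 ≤ x) (hx1 : x < 1) :
    WW r (mm r) x = ∫ t in (0 : ℝ)..x, Real.exp (2 * SS r t) := by
  obtain ⟨C, hC0, hC⟩ := mm_asym hr
  have hlin : ∀ n : ℕ, |mm r n| ≤ (1 + (C + |aa r| * (r + 1))) * (n + 1) := by
    intro n
    have h1 : |mm r n| ≤ |mm r n - aa r * (n + r)| + |aa r * (n + r)| := by
      have := abs_add_le (mm r n - aa r * (n + r)) (aa r * (n + r))
      simpa using this
    have hn : (0 : ℝ) ≤ n := Nat.cast_nonneg n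
    have hr : (0 : ℝ) ≤ r := Nat.cast_nonneg r
    have h2 : |aa r * (n + r)| = |aa r| * (n + r) := by
      rw [abs_mul, abs_of_nonneg (by positivity : (0 : ℝ) ≤ n + r)]
    have h3 := hC n
    have h4 : (n : ℝ) + r ≤ (r + 1) * (n + 1) := by nlinarith
    have h5 := mul_le_mul_of_nonneg_left h4 (abs_nonneg (aa r))
    nlinarith
  have hh : ∀ n : ℕ, |(fun n : ℕ => ((n + 1 - r : ℕ) : ℝ)) n| ≤
      (1 + (C + |aa r| * (r + 1))) * (n + 1) := by
    intro n
    simp only
    rw [abs_of_nonneg (Nat.cast_nonneg _)]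
    have h1 : n + 1 - r ≤ n + 1 := Nat.sub_le _ _
    have h2 : ((n + 1 - r : ℕ) : ℝ) ≤ n + 1 := by exact_mod_cast h1
    have h3 : 0 ≤ (C + |aa r| * ((r : ℝ) + 1)) * ((n : ℝ) + 1) := by positivity
    linarith
  have h1 := WW_eq hr (K := 1 + (C + |aa r| * (r + 1))) (by positivity) hlin hh (mm_sol hr)
    (fun _ => 1) continuousOn_const ?_ hx0 hx1
  · rw [h1]
    congr 1
    funext t
    have : ∑ i ∈ Finset.range r, mm r i * t ^ i = 0 := by
      refine Finset.sum_eq_zero fun i hi => ?_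
      rw [mm_small hr (Finset.mem_range.mp hi), zero_mul]
    rw [this]
    ring
  · intro t ht0 ht1
    have habs : |t| < 1 := by rwa [abs_of_nonneg ht0]
    refine Eq.trans ?_ (geom_one habs)
    congr 2
    funext j
    show ((j + r + 1 - r : ℕ) : ℝ) = ((j + 1 : ℕ) : ℝ)
    congr 1
    omega

/-- the centred means decay -/
lemma dd_decay (hr : 1 ≤ r) : ∃ C : ℝ, 0 ≤ C ∧ ∀ n : ℕ, |dd r (aa r) n| ≤ C / (n + 1) ^ 2 := by
  obtain ⟨C, hC0, hC⟩ := mm_asym hr
  obtain ⟨l, C', hC0', hC'⟩ := asym_hom hr (dd_sol hr (aa r))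
  have hl : l = 0 := by
    by_contra hne
    have hpos : 0 < |l| := abs_pos.mpr hne
    obtain ⟨n, hn⟩ := exists_nat_gt ((C + 1 + C') / |l|)
    rw [div_lt_iff₀ hpos] at hn
    have h1 := hC' n
    have h2 := hC n
    have h3 : |dd r (aa r) n| ≤ C + 1 := by
      rw [dd_eq]
      refine (abs_add_le _ _).trans ?_
      rw [abs_one]
      linarith
    have h4 : C' / ((n : ℝ) + 1) ^ 2 ≤ C' := by
      rw [div_le_iff₀ (by positivity)]
      have : (1 : ℝ) ≤ ((n : ℝ) + 1) ^ 2 := by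
        have : (0 : ℝ) ≤ n := Nat.cast_nonneg n
        nlinarith
      nlinarith
    have h5 : |l * (n + r)| ≤ |dd r (aa r) n| + |dd r (aa r) n - l * (n + r)| := by
      have := abs_sub (dd r (aa r) n) (dd r (aa r) n - l * (n + r))
      simpa using this
    rw [abs_mul, abs_of_nonneg (by positivity : (0 : ℝ) ≤ n + r)] at h5
    have h6 : |l| * n ≤ |l| * (n + r) :=
      mul_le_mul_of_nonneg_left (by linarith [Nat.cast_nonneg (α := ℝ) r]) hpos.le
    linarith
  refine ⟨C', hC0', fun n => ?_⟩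
  have := hC' n
  rwa [hl, zero_mul, sub_zero] at this

lemma summable_inv_sq (C : ℝ) : Summable fun n : ℕ => C / ((n : ℝ) + 1) ^ 2 := by
  have h1 : Summable fun n : ℕ => 1 / ((n : ℝ)) ^ 2 := Real.summable_one_div_nat_pow.mpr (by norm_num)
  have h2 := (summable_nat_add_iff 1).mpr h1
  refine (h2.mul_left C).congr fun n => ?_
  push_cast
  ring

/-- the numerator `(1 - x)² ∑ d n x ^ n` -/
noncomputable def NN (r : ℕ) (x : ℝ) : ℝ :=
  x ^ (r - 1) * (Real.exp (-(2 * SS r x)) * ∫ t in (0 : ℝ)..x, Real.exp (2 * SS r t))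
    - aa r * x + (1 - r * aa r) * (1 - x)

lemma YY_dd (hr : 1 ≤ r) {x : ℝ} (hx0 : 0 ≤ x) (hx1 : x < 1) :
    (1 - x) ^ 2 * YY (dd r (aa r)) x = NN r x := by
  have habs : |x| < 1 := by rwa [abs_of_nonneg hx0]
  have hnorm : ‖x‖ < 1 := by rwa [Real.norm_eq_abs]
  have h1x : 1 - x ≠ 0 := by linarith
  obtain ⟨C, hC0, hC⟩ := mm_asym hr
  have hlin : ∀ n : ℕ, |mm r n| ≤ (C + |aa r| * (r + 1)) * (n + 1) := by
    intro n
    have h1 : |mm r n| ≤ |mm r n - aa r * (n + r)| + |aa r * (n + r)| := by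
      have := abs_add_le (mm r n - aa r * (n + r)) (aa r * (n + r))
      simpa using this
    have hn : (0 : ℝ) ≤ n := Nat.cast_nonneg n
    have hr : (0 : ℝ) ≤ r := Nat.cast_nonneg r
    have h2 : |aa r * (n + r)| = |aa r| * (n + r) := by
      rw [abs_mul, abs_of_nonneg (by positivity : (0 : ℝ) ≤ n + r)]
    have h3 := hC n
    have h4 : (n : ℝ) + r ≤ (r + 1) * (n + 1) := by nlinarith
    have h5 := mul_le_mul_of_nonneg_left h4 (abs_nonneg (aa r))
    nlinarith
  have hg0 : ∑' j : ℕ, x ^ j = (1 - x)⁻¹ := tsum_geometric_of_norm_lt_one hnorm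
  have hg1 : ∑' j : ℕ, ((j : ℝ)) * x ^ j = x / (1 - x) ^ 2 :=
    tsum_coe_mul_geometric_of_norm_lt_one hnorm
  have hs0 : Summable fun j : ℕ => x ^ j := summable_geometric_of_norm_lt_one hnorm
  have hs1 : Summable fun j : ℕ => (j : ℝ) * x ^ j := by
    simpa using summable_pow_mul_geometric_of_norm_lt_one 1 hnorm
  have hsm : Summable fun j : ℕ => mm r j * x ^ j := (summable_lin hlin habs).of_norm
  have h1 : YY (dd r (aa r)) x = YY (mm r) x - aa r * (x / (1 - x) ^ 2)
      + (1 - aa r * r) * (1 - x)⁻¹ := by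
    unfold YY
    have h2 : ∀ j : ℕ, dd r (aa r) j * x ^ j = mm r j * x ^ j +
        ((-(aa r)) * ((j : ℝ) * x ^ j) + (1 - aa r * r) * x ^ j) := by
      intro j
      rw [dd_eq]
      ring
    simp only [h2]
    rw [Summable.tsum_add hsm ((hs1.mul_left _).add (hs0.mul_left _)),
      Summable.tsum_add (hs1.mul_left _) (hs0.mul_left _), tsum_mul_left, tsum_mul_left, hg0, hg1]
    ring
  have h2 : YY (mm r) x = x ^ (r - 1) * FF r (mm r) x := by
    rw [YY_split' hr hlin habs]
    have : ∑ i ∈ Finset.range r, mm r i * x ^ i = 0 := by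
      refine Finset.sum_eq_zero fun i hi => ?_
      rw [mm_small hr (Finset.mem_range.mp hi), zero_mul]
    rw [this, zero_add]
  have h3 := WW_mm hr hx0 hx1
  unfold WW at h3
  have h4 : (1 - x) ^ 2 * FF r (mm r) x =
      Real.exp (-(2 * SS r x)) * ∫ t in (0 : ℝ)..x, Real.exp (2 * SS r t) := by
    rw [← h3]
    have : Real.exp (-(2 * SS r x)) * Real.exp (2 * SS r x) = 1 := by
      rw [← Real.exp_add]; simp
    linear_combination (-((1 - x) ^ 2 * FF r (mm r) x)) * this
  unfold NN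
  rw [← h4, h1, h2]
  field_simp

/-- the limiting variance, in terms of the functions above -/
noncomputable def vlim (r : ℕ) : ℝ :=
  Real.exp (-(2 * SS r 1)) * ∫ t in (0 : ℝ)..1, Real.exp (2 * SS r t) *
    (2 * (1 - t) * (∑ i ∈ Finset.range r, (1 - aa r * (i + r)) ^ 2 * t ^ i)
      + 2 * (NN r t) ^ 2 / (1 - t) ^ 2)

lemma cc_shift (r : ℕ) (a : ℝ) (j : ℕ) :
    cc r a (j + r) = 2 * ∑ i ∈ Finset.range (j + 1), dd r a i * dd r a (j - i) := by
  unfold cc
  rw [show j + r + 1 - r = j + 1 by omega, show j + r - r = j by omega]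

/-- **The variance limit.** -/
theorem variance_limit (hr : 1 ≤ r) :
    Tendsto (fun n : ℕ => Var[fun c : ℕ => (c : ℝ); (jammed r n).toMeasure] / n) atTop
      (𝓝 (vlim r)) := by
  obtain ⟨C, hC0, hC⟩ := dd_decay hr
  set a := aa r with ha
  set T := ∑' n : ℕ, C / ((n : ℝ) + 1) ^ 2 with hT
  have hsC := summable_inv_sq C
  have hT0 : 0 ≤ T := tsum_nonneg fun n => by positivity
  have hdC : ∀ n, |dd r a n| ≤ C := by
    intro n
    refine (hC n).trans ?_
    rw [div_le_iff₀ (by positivity)]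
    have : (1 : ℝ) ≤ ((n : ℝ) + 1) ^ 2 := by
      have : (0 : ℝ) ≤ n := Nat.cast_nonneg n
      nlinarith
    nlinarith
  have hcc : ∀ n, |cc r a n| ≤ 2 * (T * C) := by
    intro n
    unfold cc
    rw [abs_mul, abs_two]
    apply mul_le_mul_of_nonneg_left _ (by norm_num)
    refine (Finset.abs_sum_le_sum_abs _ _).trans ?_
    have h1 : ∀ i ∈ Finset.range (n + 1 - r), |dd r a i * dd r a (n - r - i)| ≤
        C / ((i : ℝ) + 1) ^ 2 * C := by
      intro i _
      rw [abs_mul]
      exact mul_le_mul (hC i) (hdC _) (abs_nonneg _) (by positivity)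
    refine (Finset.sum_le_sum h1).trans ?_
    rw [← Finset.sum_mul]
    apply mul_le_mul_of_nonneg_right _ hC0
    exact hsC.sum_le_tsum _ (fun i _ => by positivity)
  have hK : ∀ n, |cc r a (n + 1) - cc r a n| ≤ 4 * (T * C) := by
    intro n
    refine (abs_sub _ _).trans ?_
    linarith [hcc (n + 1), hcc n]
  obtain ⟨l, C2, hC20, hC2⟩ := asym_inhom hr (vv_sol hr a) hK
  -- identify `l`
  have hh : ∀ n : ℕ, |cc r a n| ≤ (2 * (T * C)) * (n + 1) := by
    intro n
    refine (hcc n).trans ?_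
    have h1 : 0 ≤ 2 * (T * C) := by positivity
    have h2 : (0 : ℝ) ≤ n := Nat.cast_nonneg n
    nlinarith
  have hbound : ∀ n : ℕ, ∀ t ∈ Icc (0 : ℝ) 1, ‖dd r a n * t ^ n‖ ≤ C / ((n : ℝ) + 1) ^ 2 := by
    intro n t ht
    rw [norm_mul, Real.norm_eq_abs, norm_pow, Real.norm_eq_abs, abs_of_nonneg ht.1]
    have h1 : t ^ n ≤ 1 := pow_le_one₀ ht.1 ht.2
    have h2 := hC n
    have h3 : 0 ≤ |dd r a n| := abs_nonneg _
    have h4 : 0 ≤ t ^ n := pow_nonneg ht.1 n
    nlinarith
  have hYc : ContinuousOn (YY (dd r a)) (Icc 0 1) := by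
    unfold YY
    refine continuousOn_tsum (fun n => ?_) hsC hbound
    fun_prop
  have hk : ContinuousOn (fun t : ℝ => 2 * ((1 - t) ^ 2 * (YY (dd r a) t) ^ 2)) (Icc 0 1) := by
    have h1 : Continuous fun t : ℝ => (1 - t) ^ 2 := by fun_prop
    exact continuousOn_const.mul (h1.continuousOn.mul (hYc.pow 2))
  have h1 := limit_eq hr hh (vv_sol hr a) _ hk ?_ hC2
  · have h2 : l = vlim r := by
      have h3 : (∫ t in (0 : ℝ)..1, Real.exp (2 * SS r t) *
          (2 * (1 - t) * (∑ i ∈ Finset.range r, vv r a i * t ^ i) +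
            2 * ((1 - t) ^ 2 * (YY (dd r a) t) ^ 2))) =
          ∫ t in (0 : ℝ)..1, Real.exp (2 * SS r t) *
            (2 * (1 - t) * (∑ i ∈ Finset.range r, (1 - aa r * (i + r)) ^ 2 * t ^ i)
              + 2 * (NN r t) ^ 2 / (1 - t) ^ 2) := by
        apply intervalIntegral.integral_congr
        intro t ht
        rw [uIcc_of_le zero_le_one] at ht
        simp only
        congr 1
        congr 1
        · congr 1
          refine Finset.sum_congr rfl fun i hi => ?_
          rw [vv_small hr a (Finset.mem_range.mp hi)]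
        · rcases eq_or_lt_of_le ht.2 with h | h
          · rw [h]; simp
          · rw [← YY_dd hr ht.1 h]
            have : 1 - t ≠ 0 := by linarith
            rw [← ha]
            field_simp
      rw [h3] at h1
      unfold vlim
      rw [← h1, mul_comm l, ← mul_assoc, ← Real.exp_add]
      simp
    rw [← h2]
    -- conclude
    have h3 : ∀ n, 1 ≤ n → |Var[fun c : ℕ => (c : ℝ); (jammed r n).toMeasure] / n - l| ≤
        (C2 + |l| * r + C ^ 2) / n := by
      intro n hn
      have hn0 : (0 : ℝ) < n := by exact_mod_cast hn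
      rw [var_eq r a]
      have h4 : (vv r a n - dd r a n ^ 2) / n - l =
          ((vv r a n - l * (n + r)) + l * r - dd r a n ^ 2) / n := by
        field_simp
        ring
      rw [h4, abs_div, abs_of_pos hn0]
      apply div_le_div_of_nonneg_right _ hn0.le
      refine (abs_sub _ _).trans ?_
      refine add_le_add ((abs_add_le _ _).trans (add_le_add (hC2 n) ?_)) ?_
      · rw [abs_mul, abs_of_nonneg (Nat.cast_nonneg r : (0 : ℝ) ≤ r)]
      · rw [abs_pow]
        exact pow_le_pow_left₀ (abs_nonneg _) (hdC n) 2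
    rw [tendsto_iff_norm_sub_tendsto_zero]
    have h5 : Tendsto (fun n : ℕ => (C2 + |l| * r + C ^ 2) / (n : ℝ)) atTop (𝓝 0) :=
      tendsto_const_nhds.div_atTop tendsto_natCast_atTop_atTop
    refine squeeze_zero' (Eventually.of_forall fun n => norm_nonneg _) ?_ h5
    filter_upwards [eventually_ge_atTop 1] with n hn
    rw [Real.norm_eq_abs]
    exact h3 n hn
  · intro t ht0 ht1
    have habs : |t| < 1 := by rwa [abs_of_nonneg ht0]
    have hs : Summable fun n => ‖dd r a n * t ^ n‖ :=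
      Summable.of_nonneg_of_le (fun n => norm_nonneg _) (fun n => hbound n t ⟨ht0, ht1.le⟩) hsC
    have h2 := tsum_mul_tsum_eq_tsum_sum_range_of_summable_norm hs hs
    have h3 : YY (fun j => cc r a (j + r)) t = 2 * (YY (dd r a) t) ^ 2 := by
      unfold YY
      rw [sq, h2, ← tsum_mul_left]
      congr 1
      funext j
      show cc r a (j + r) * t ^ j = _
      rw [cc_shift, mul_assoc, Finset.sum_mul]
      congr 1
      refine Finset.sum_congr rfl fun i hi => ?_
      rw [Finset.mem_range] at hi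
      have : t ^ j = t ^ i * t ^ (j - i) := by
        rw [← pow_add]
        congr 1
        omega
      rw [this]
      ring
    rw [h3]
    ring

end Pool.Agent.J6H73.RSA
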